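import Pool.Agent.Lib.MP_a9445a_lc.Mg.G146

/-!
# Below 2/3: the procedures

A procedure `E : Rf n` gives for a block `Q`, a level `p` and an exponent `b` (of the budget `2 ^ b`) either `none`
(failure) or a set of vectors of the block of value `p` (perhaps not all). `nd` is the step from the procedure for the
children to the procedure for a block; `Lf` are the leaves.
-/

set_option autoImplicit false

open Finset

namespace Pool.Agent.MPa9445a.SB

open Pool.Agent.MPa9445a.SN (Fm rs kb)
open Pool.Agent.MPa9445a.GL (Vc S Ph Lv T Par lvl LL la2 xk vc pl)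

variable {n : ℕ}

/-- Procedures: block, level, exponent of the budget. -/
abbrev Rf (n : ℕ) : Type := Finset (Fin n) → ℤ → ℕ → Option (Finset (Vc n))

/-- The number of binary digits of `n + 2`; `2 ^ lg n` replaces `n`. -/
def lg (n : ℕ) : ℕ := Nat.clog 2 (n + 2)

/-! ## Pairs of blocks -/

/-- With the budget `2 ^ j` for both children the pair is finished. -/
def POk (E : Rf n) (X Y : Finset (Fin n)) (a b : ℤ) (j : ℕ) : Prop :=
  E X a j = some ∅ ∨ E Y b j = some ∅ ∨
    ∃ A B, E X a j = some A ∧ E Y b j = some B ∧ A.card * B.card ≤ 2 ^ j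

open scoped Classical in
/-- The least sufficient exponent. -/
noncomputable def pj (E : Rf n) (X Y : Finset (Fin n)) (a b : ℤ) : ℕ :=
  if h : ∃ j, POk E X Y a b j then Nat.find h else 2 * n

/-- The cost of the pair. -/
noncomputable def pc (E : Rf n) (X Y : Finset (Fin n)) (a b : ℤ) : ℕ := 2 ^ pj E X Y a b

open scoped Classical in
/-- The vectors composed of the two lists. -/
noncomputable def po (E : Rf n) (X Y : Finset (Fin n)) (a b : ℤ) : Finset (Vc n) :=
  (((E X a (pj E X Y a b)).getD ∅) ×ˢ ((E Y b (pj E X Y a b)).getD ∅)).image fun z => z.1 + z.2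

/-- The cost of the set `D` for the block `Q`, `q` the sum of the levels of the children. -/
noncomputable def cD (E : Rf n) (Q : Finset (Fin n)) (q : ℤ) (D : Finset (Fin n)) : ℕ :=
  ∑ a ∈ la2 n q, pc E D (Q \ D) a (q - a)

/-- The cost of the loop over the sets `D κ`, `κ < k`. -/
noncomputable def cR (E : Rf n) (Q : Finset (Fin n)) (D : ℕ → Finset (Fin n)) (k : ℕ) (q : ℤ) : ℕ :=
  ∑ κ ∈ range k, cD E Q q (D κ)

open scoped Classical in
/-- The vectors of value `p` which are found by the loop. -/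
noncomputable def oR (W : Matrix (Fin n) (Fin n) ℤ) (E : Rf n) (Q : Finset (Fin n))
    (D : ℕ → Finset (Fin n)) (k : ℕ) (q p : ℤ) : Finset (Vc n) :=
  ((range k).biUnion fun κ => (la2 n q).biUnion fun a => po E (D κ) (Q \ D κ) a (q - a)).filter
    fun x => Ph W x = p

/-! ## The leaves, the enumeration; `Go` is the golden procedure -/

/-- The exponent of the budget of the entries of the table. -/
def jt (n s : ℕ) : ℕ := 8 * (20 + 60 * lg n) + 6943 * s / 10000 + 1

open scoped Classical in
/-- The leaves: the entry of the table if it is not longer than the budget, otherwise the golden procedure. -/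
noncomputable def Lf (W : Matrix (Fin n) (Fin n) ℤ) (Go : Rf n) {R : ℕ} (h : Hm n R) : Rf n :=
  fun X a j =>
    if X ∈ Cc h univ ∧ 10000 * X.card ≤ 1891 * n ∧ Go X a (jt n X.card) ≠ none ∧
      (Lv W (bl X) a).card ≤ 2 ^ j then some (Lv W (bl X) a) else Go X a j

/-- The vectors of the block `X`, `D = Q \ X`, of score at most `Θ`. -/
def vl (σ : Sc n) (Q X : Finset (Fin n)) (Θ : ℕ) : Finset (Vc n) :=
  (S (bl X)).filter fun v => sc σ Q (Q \ X) v ≤ Θ

/-- The children in mode B: the golden procedure for small blocks `D`, the enumeration for large blocks `Q \ D`,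
nothing for the others. -/
noncomputable def EB (W : Matrix (Fin n) (Fin n) ℤ) (Go : Rf n) (d : ℕ) (σ : Sc n)
    (Q : Finset (Fin n)) (Θ : ℕ) : Rf n := fun X a j =>
  if 10000 * X.card < d * Q.card then Go X a j else
  if (10000 - d) * Q.card < 10000 * X.card then
    (if (vl σ Q X Θ).card ≤ 2 ^ j then some ((vl σ Q X Θ).filter fun v => Ph W v = a) else none)
  else some ∅

/-- The size `s` is in the window of a block of size `m`. -/
def Wi (d m s : ℕ) : Prop := d * m ≤ 10000 * s ∧ 10000 * s ≤ (10000 - d) * m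

instance (d m s : ℕ) : Decidable (Wi d m s) := by
  unfold Wi
  infer_instance

/-- The procedure `E`, for blocks with sizes in the window. -/
def Wn (d m : ℕ) (E : Rf n) : Rf n := fun X a j => if Wi d m X.card then E X a j else some ∅

/-! ## Samples -/

/-- The exponent of the factor of the number of samples. -/
def c1 : ℕ := 30

/-- The exponent of the factor of the number of tries. -/
def c2 : ℕ := 30

/-- The number of samples. -/
def Jn (n m g : ℕ) : ℕ := 2 ^ (m + c1 * lg n - g)

/-- The samples of value `t`. -/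
def ht (W : Matrix (Fin n) (Fin n) ℤ) (Q : Finset (Fin n)) (ω : Fm n) (J : ℕ) (t : ℤ) : Finset ℕ :=
  (range J).filter fun κ => Ph W (xk (bl Q) ω κ) = t

/-- The exponent of the number of tries in the set `𝒞` with `2 ^ c` elements. -/
def ex (n c g x : ℕ) : ℕ := c + (c1 + c2) * lg n - g - Nat.log 2 x

/-- The places: vertices with signs. -/
abbrev Pl (n l : ℕ) : Type := Fin l → Fin n × Bool

/-- The vector has the signs `w`. -/
def Ag {l : ℕ} (w : Pl n l) (x : Vc n) : Prop := ∀ i, x (w i).1 = if (w i).2 then 1 else -1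

instance {l : ℕ} (w : Pl n l) (x : Vc n) : Decidable (Ag w x) := by
  unfold Ag
  infer_instance

/-- The parameters of a level: the window, the number of the places, the grid of the frequencies, the tables of the
scores, the scale of the scores, the threshold (per vertex, in millionths). -/
structure Lev where
  d : ℕ
  l : ℕ
  M : ℕ
  tw : ℕ → ℕ
  ta : ℕ → ℕ
  tb : ℕ → ℕ
  K : ℕ
  th : ℕ

/-- The frequency of the entry `1` at `v` in the samples of value `t` with the signs `w`, as a point of the grid. -/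
def gr (W : Matrix (Fin n) (Fin n) ℤ) (Q : Finset (Fin n)) (ω : Fm n) (J : ℕ) (t : ℤ) {l : ℕ}
    (w : Pl n l) (M : ℕ) (v : Fin n) : ℕ :=
  M * ((ht W Q ω J t).filter fun κ => Ag w (xk (bl Q) ω κ) ∧ xk (bl Q) ω κ v = 1).card /
    ((ht W Q ω J t).filter fun κ => Ag w (xk (bl Q) ω κ)).card

/-- The scores. -/
def sr (W : Matrix (Fin n) (Fin n) ℤ) (P : Lev) (Q : Finset (Fin n)) (ω : Fm n) (J : ℕ) (t : ℤ)
    (w : Pl n P.l) : Sc n where
  w v := P.tw (gr W Q ω J t w P.M v)
  a v := P.ta (gr W Q ω J t w P.M v)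
  b v := P.tb (gr W Q ω J t w P.M v)

/-- The threshold for blocks of size `m`. -/
def Lev.Θ (P : Lev) (m : ℕ) : ℕ := P.K * P.th * m / 1000000

/-! ## The step -/

/-- The random bits of one round: samples, sets in the code, sets. -/
abbrev Rr (n : ℕ) : Type := Fm n × Fm n × Fm n

/-- The random bits of a level: `n` rounds. -/
abbrev Sr (n : ℕ) : Type := Fin n → Rr n

section

variable (W : Matrix (Fin n) (Fin n) ℤ) (Go : Rf n) {R : ℕ} (h : Hm n R)
  (φ : Finset (Fin n) → Finset (Fin n) → Finset (Fin n)) (P : Lev) (E : ℕ → Rf n) (g : ℕ → ℕ)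

/-- The exponent of the number of tries in the code. -/
def eU (Q : Finset (Fin n)) (g : ℕ) (ω : Rr n) (t : ℤ) : ℕ :=
  ex n (Nat.log 2 (Cc h Q).card + R) g (ht W Q ω.1 (Jn n Q.card g) t).card

/-- The exponent of the number of tries. -/
def eB (Q : Finset (Fin n)) (g : ℕ) (ω : Rr n) (t : ℤ) : ℕ :=
  ex n Q.card g (ht W Q ω.1 (Jn n Q.card g) t).card

/-- The sets `D` of the mode U: `φ Q` maps the subsets of `Fin n` onto the subsets of `Q` in the code. -/
def dU (Q : Finset (Fin n)) (ω : Rr n) (κ : ℕ) : Finset (Fin n) := φ Q (rs ω.2.1 κ)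

/-- The sets `D` of the mode B. -/
def dB' (Q : Finset (Fin n)) (ω : Rr n) (κ : ℕ) : Finset (Fin n) := rs ω.2.2 κ ∩ Q

/-- The cost of the mode U. -/
noncomputable def cU (Q : Finset (Fin n)) (g : ℕ) (p : ℤ) (ω : Rr n) (t : ℤ) : ℕ :=
  cR (Wn P.d Q.card (E Q.card)) Q (dU φ Q ω) (2 ^ eU W h Q g ω t) ((p + t) / 2)

/-- The children in mode B for the places `w`. -/
noncomputable def Ew (Q : Finset (Fin n)) (g : ℕ) (ω : Rr n) (t : ℤ) (w : Pl n P.l) : Rf n :=
  EB W Go P.d (sr W P Q ω.1 (Jn n Q.card g) t w) Q (P.Θ Q.card)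

/-- The cost of the mode B for the places `w`. -/
noncomputable def cB (Q : Finset (Fin n)) (g : ℕ) (p : ℤ) (ω : Rr n) (t : ℤ) (w : Pl n P.l) : ℕ :=
  cR (Ew W Go P Q g ω t w) Q (dB' Q ω) (2 ^ eB W Q g ω t) ((p + t) / 2)

/-- The level `t` is present. -/
def Pr (Q : Finset (Fin n)) (g : ℕ) (ω : Rr n) (t : ℤ) : Prop :=
  2 ^ (c1 * lg n - 1) ≤ (ht W Q ω.1 (Jn n Q.card g) t).card

/-- The attempt with the level `t` succeeds. -/
structure AOk (Q : Finset (Fin n)) (g : ℕ) (p : ℤ) (b : ℕ) (ω : Rr n) (t : ℤ) : Prop where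
  hb : Q.card ≤ g + b
  pr : Pr W Q g ω t
  par : (p + t) % 2 = 0
  hU : eU W h Q g ω t ≤ b
  hB : eB W Q g ω t ≤ b
  cU : cU W h φ P E Q g p ω t ≤ 2 ^ b
  cB : ∀ w, cB W Go P Q g p ω t w ≤ 2 ^ b

open scoped Classical in
/-- The result of the attempt. -/
noncomputable def oA (Q : Finset (Fin n)) (g : ℕ) (p : ℤ) (ω : Rr n) (t : ℤ) : Finset (Vc n) :=
  oR W (Wn P.d Q.card (E Q.card)) Q (dU φ Q ω) (2 ^ eU W h Q g ω t) ((p + t) / 2) p ∪
    univ.biUnion fun w : Pl n P.l =>
      oR W (Ew W Go P Q g ω t w) Q (dB' Q ω) (2 ^ eB W Q g ω t) ((p + t) / 2) p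

/-- The level with index `x`. -/
def tl (n x : ℕ) : ℤ := ((x % LL n : ℕ) : ℤ) - (n : ℤ) ^ 4

/-- The attempt with index `x` succeeds: round `x / LL n`, level `tl n x`. -/
def Ax (Q : Finset (Fin n)) (p : ℤ) (b : ℕ) (ω : Sr n) (x : ℕ) : Prop :=
  ∃ hz : x / LL n < n, AOk W Go h φ P E Q (g Q.card) p b (ω ⟨x / LL n, hz⟩) (tl n x)

open scoped Classical in
/-- The result of the attempt with index `x`. -/
noncomputable def Ox (Q : Finset (Fin n)) (p : ℤ) (ω : Sr n) (x : ℕ) : Finset (Vc n) :=
  if hz : x / LL n < n then oA W Go h φ P E Q (g Q.card) p (ω ⟨x / LL n, hz⟩) (tl n x) else ∅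

open scoped Classical in
/-- The procedure of a level: the first attempt which succeeds. -/
noncomputable def nd (ω : Sr n) : Rf n := fun Q p b =>
  if Q.card ≤ b then some (Lv W (bl Q) p) else
  if ¬ Par W (bl Q) p then some ∅ else
  if hx : ∃ x, Ax W Go h φ P E g Q p b ω x then
    some (Ox W Go h φ P E g Q p ω (Nat.find hx)) else none

end

/-! ## The levels -/

/-- The codimension of the code. -/
def Rc (n : ℕ) : ℕ := 1655 * n / 10000 + 1

/-- The exponent of the budget of the top level. -/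
def g0 (n : ℕ) : ℕ := 6665 * n / 10000

/-- The exponent of the budget of the level 1. -/
def g1 (n : ℕ) : ℕ := 3330 * n / 10000

/-- The exponent of the budget of the level 2: `s` is the size of the block, `m` the size of the block of level 1. -/
def g2 (n m s : ℕ) : ℕ := 2 * g1 n - Nat.clog 2 (m.choose s)

section

variable (W : Matrix (Fin n) (Fin n) ℤ) (Go : Rf n) {R : ℕ} (h : Hm n R)
  (φ : Finset (Fin n) → Finset (Fin n) → Finset (Fin n)) (PA PB : Lev)

/-- The procedure of level 2, `m` is the size of the block of level 1. -/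
noncomputable def E2 (ω₂ : Sr n) (m : ℕ) : Rf n :=
  nd W Go h φ PB (fun _ => Lf W Go h) (g2 n m) ω₂

/-- The procedure of level 1. -/
noncomputable def E1 (ω₂ ω₁ : Sr n) : Rf n :=
  nd W Go h φ PA (E2 W Go h φ PB ω₂) (fun _ => g1 n) ω₁

end

end Pool.Agent.MPa9445a.SB
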