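import Pool.Agent.Lib.MP_a9445a_lc.Mg.G099

/-! The tables of the scores. -/

set_option autoImplicit false

namespace Pool.Agent.MPa9445a.SB

private theorem B2_inv {k₁ y : ℝ} (hk₁ : 0 ≤ k₁) (hy : y ≤ k₁) :
    (2 : ℝ) ^ (-(k₁ + 1)) ≤ 1 / (1 + 2 ^ y) := by
  have h1 : (1 : ℝ) ≤ 2 ^ k₁ := Real.one_le_rpow (by norm_num) hk₁
  have h2 : (2 : ℝ) ^ y ≤ 2 ^ k₁ := Real.rpow_le_rpow_of_exponent_le (by norm_num) hy
  have h3 : (2 : ℝ) ^ (k₁ + 1) = 2 ^ k₁ * 2 := by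
    rw [Real.rpow_add (by norm_num), Real.rpow_one]
  rw [Real.rpow_neg (by norm_num), h3, ← one_div]
  have h4 : (0 : ℝ) < 2 ^ y := by positivity
  exact one_div_le_one_div_of_le (by positivity) (by linarith)

/-- `1 ≤ -log₂ (2 p (1 - p)) ≤ k₁ + 1` etc. PROOF. `pp k₁ π` and `1 - pp k₁ π` are at least `1 / (1 + 2 ^ k₁) ≥ 2 ^ (-(k₁ + 1))` for `0 ≤ π ≤ 1`, `0 ≤ k₁`. -/
theorem pp_ge {k₁ π : ℝ} (hk₁ : 0 ≤ k₁) (h0 : 0 ≤ π) (h1 : π ≤ 1) :
    (2 : ℝ) ^ (-(k₁ + 1)) ≤ pp k₁ π ∧ (2 : ℝ) ^ (-(k₁ + 1)) ≤ 1 - pp k₁ π := by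
  constructor
  · exact B2_inv hk₁ (by nlinarith)
  · have e : 1 - pp k₁ π = 1 / (1 + 2 ^ (-(k₁ * (1 - 2 * π)))) := by
      unfold pp
      rw [Real.rpow_neg (by norm_num)]
      have : (0 : ℝ) < 2 ^ (k₁ * (1 - 2 * π)) := by positivity
      field_simp
      ring
    rw [e]
    exact B2_inv hk₁ (by nlinarith)

/-- `2 ^ (-(⌈K x⌉ / K)) ≤ q` if `x = -log₂ q`. -/
private theorem B2_kr {K : ℕ} (hK : 0 < K) {x q : ℝ} (hq : 0 < q) (hx : x = -Real.logb 2 q) :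
    (2 : ℝ) ^ (-((⌈(K : ℝ) * x⌉₊ : ℝ) / K)) ≤ q := by
  have hK' : (0 : ℝ) < K := by exact_mod_cast hK
  have h1 : (K : ℝ) * x ≤ ⌈(K : ℝ) * x⌉₊ := Nat.le_ceil _
  have h2 : x ≤ (⌈(K : ℝ) * x⌉₊ : ℝ) / K := by
    rw [le_div_iff₀ hK']; linarith
  have h3 : (2 : ℝ) ^ (Real.logb 2 q) = q := Real.rpow_logb (by norm_num) (by norm_num) hq
  calc (2 : ℝ) ^ (-((⌈(K : ℝ) * x⌉₊ : ℝ) / K)) ≤ 2 ^ (Real.logb 2 q) :=
        Real.rpow_le_rpow_of_exponent_le (by norm_num) (by linarith)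
    _ = q := h3

private theorem B2_up {K : ℕ} {x : ℝ} (hx : 0 ≤ x) :
    (⌈(K : ℝ) * x⌉₊ : ℝ) ≤ K * x + 1 :=
  (Nat.ceil_lt_add_one (by positivity)).le

/-- The scalar estimate. -/
private theorem B2_est {K π π₀ x y k C ε δ A B X : ℝ} (hK : 0 < K) (hπ : 0 ≤ π) (hπ1 : π ≤ 1)
    (hX : X ≤ K * x + 1) (hY : A ≤ K * y + 1) (hd : |π - π₀| ≤ δ)
    (hx0 : 0 ≤ x) (hx1 : x ≤ C) (hy0 : 0 ≤ y) (hy1 : y ≤ C) (hk : 0 ≤ k) (hkC : k ≤ C)
    (hs : (1 - π₀) * x + π₀ * y ≤ B + k * π₀) (hε : δ * (2 * C) * K + 1 ≤ K * ε) :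
    (1 - π) * X + π * A ≤ K * ((B + ε) + k * π) := by
  have h1 : (1 - π) * X ≤ (1 - π) * (K * x + 1) := mul_le_mul_of_nonneg_left hX (by linarith)
  have h2 : π * A ≤ π * (K * y + 1) := mul_le_mul_of_nonneg_left hY hπ
  have hC : 0 ≤ C := le_trans hk hkC
  obtain ⟨d1, d2⟩ := abs_le.1 hd
  have hδ : 0 ≤ δ := le_trans (abs_nonneg _) hd
  have h3 : (π - π₀) * (y - x - k) ≤ δ * (2 * C) := by
    have e1 : |(π - π₀) * (y - x - k)| ≤ δ * (2 * C) := by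
      rw [abs_mul]
      exact mul_le_mul hd (abs_le.2 ⟨by linarith, by linarith⟩) (abs_nonneg _) hδ
    exact le_trans (le_abs_self _) e1
  have h4 : (1 - π) * x + π * y ≤ B + k * π + δ * (2 * C) := by
    have : (1 - π) * x + π * y = (1 - π₀) * x + π₀ * y + (π - π₀) * (y - x - k) + k * (π - π₀) := by
      ring
    rw [this]
    linarith
  have h5 : K * ((1 - π) * x + π * y) ≤ K * (B + k * π + δ * (2 * C)) :=
    mul_le_mul_of_nonneg_left h4 hK.le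
  nlinarith [h1, h2, h5, hε]

/-- The table of the scores: for every precision there are a grid `j / M`, a scale `K` and natural numbers which satisfy Kraft's inequality and the bound for the expected scores for all
frequencies near `j / M`. PROOF. For `j ≤ M` let `p = pp k₁ (j / M)`, `w = ⌈K * (-log₂ (2 p (1 - p)))⌉₊`, `a = ⌈K * (-2 log₂ (1 - p))⌉₊`, `b = ⌈K * (-2 log₂ p)⌉₊` (all three real numbers are between `0` and `K * 2 (k₁ + 1)` by `pp_ge`).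
Kraft: rounding up only decreases the powers, and `2 p (1 - p) + (1 - p) ^ 2 + p ^ 2 = 1`. Expected scores: at `π₀ = j / M` the first expression without rounding is
`(1 - π₀) * 2 ℓ₁ + π₀ * (ℓ₀ + ℓ₁ - 1) = (2 - π₀) ℓ₁ + π₀ ℓ₀ - π₀` (`ℓ₀ = -log₂ p`, `ℓ₁ = -log₂ (1 - p)`), bounded by `score_minus`; the second one by `score_plus`. Rounding adds at most `1 / K`, changing `π₀` to `π` adds at most
`(2 / M) * 5 (k₁ + 1)`; choose `M` and `K` large. -/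
theorem table {k₀ k₁ : ℝ} (hk : ∀ x, 0 < x → x < 1 → hh x ≤ k₀ + k₁ * (x * (1 - x)))
    (hk₁ : 1 ≤ k₁) {ε : ℝ} (hε : 0 < ε) :
    ∃ (M K : ℕ) (tw ta tb : ℕ → ℕ), 0 < M ∧ 0 < K ∧ ∀ j ≤ M, Kr K (tw j) (ta j) (tb j) ∧
      ∀ π : ℝ, 0 ≤ π → π ≤ 1 → |π - j / M| ≤ 2 / M →
        Ex K (2 * k₀ + ε) k₁ π (tw j) (ta j) (tb j) := by
  obtain ⟨M, hM⟩ := exists_nat_gt (16 * (k₁ + 1) / ε)
  obtain ⟨K, hK⟩ := exists_nat_gt (2 / ε)
  have hM0 : (0 : ℝ) < M := lt_of_le_of_lt (by positivity) hM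
  have hK0 : (0 : ℝ) < K := lt_of_le_of_lt (by positivity) hK
  have hMn : 0 < M := by exact_mod_cast hM0
  have hKn : 0 < K := by exact_mod_cast hK0
  rw [div_lt_iff₀ hε] at hM hK
  let l0 : ℕ → ℝ := fun j => -Real.logb 2 (pp k₁ ((j : ℝ) / M))
  let l1 : ℕ → ℝ := fun j => -Real.logb 2 (1 - pp k₁ ((j : ℝ) / M))
  refine ⟨M, K, fun j => ⌈(K : ℝ) * (l0 j + l1 j - 1)⌉₊, fun j => ⌈(K : ℝ) * (2 * l1 j)⌉₊,
    fun j => ⌈(K : ℝ) * (2 * l0 j)⌉₊, hMn, hKn, fun j hj => ?_⟩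
  set p := pp k₁ ((j : ℝ) / M) with hp
  have p0 : 0 < p := pp_pos _ _
  have p1 : p < 1 := pp_lt_one _ _
  have q0 : 0 < 1 - p := by linarith
  have e0 : l0 j = -Real.logb 2 p := rfl
  have e1 : l1 j = -Real.logb 2 (1 - p) := rfl
  have j0 : (0 : ℝ) ≤ (j : ℝ) / M := by positivity
  have j1 : (j : ℝ) / M ≤ 1 := by
    rw [div_le_one hM0]; exact_mod_cast hj
  obtain ⟨g0, g1⟩ := pp_ge (by linarith : (0 : ℝ) ≤ k₁) j0 j1
  rw [← hp] at g0 g1
  have b0 : l0 j ≤ k₁ + 1 := by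
    have := (Real.le_logb_iff_rpow_le (by norm_num : (1 : ℝ) < 2) p0).2 g0
    rw [e0]; linarith
  have b1 : l1 j ≤ k₁ + 1 := by
    have := (Real.le_logb_iff_rpow_le (by norm_num : (1 : ℝ) < 2) q0).2 g1
    rw [e1]; linarith
  have a0 : 0 ≤ l0 j := by
    have := Real.logb_neg (by norm_num : (1 : ℝ) < 2) p0 p1
    rw [e0]; linarith
  have a1 : 0 ≤ l1 j := by
    have := Real.logb_neg (by norm_num : (1 : ℝ) < 2) q0 (by linarith)
    rw [e1]; linarith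
  have hw : l0 j + l1 j - 1 = -Real.logb 2 (2 * p * (1 - p)) := by
    rw [Real.logb_mul (by positivity) (by linarith), Real.logb_mul (by norm_num) (by linarith),
      Real.logb_self_eq_one (by norm_num), e0, e1]
    ring
  have hw1 : 0 ≤ l0 j + l1 j - 1 := by
    have h2 : 2 * p * (1 - p) ≤ 1 := by nlinarith [sq_nonneg (p - 1 / 2)]
    have := Real.logb_nonpos (by norm_num : (1 : ℝ) < 2) (by positivity : 0 ≤ 2 * p * (1 - p)) h2
    rw [hw]; linarith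
  have ha : 2 * l1 j = -Real.logb 2 ((1 - p) ^ 2) := by
    rw [Real.logb_pow, e1]; push_cast; ring
  have hb : 2 * l0 j = -Real.logb 2 (p ^ 2) := by
    rw [Real.logb_pow, e0]; push_cast; ring
  constructor
  · have k1 := B2_kr hKn (by positivity : 0 < 2 * p * (1 - p)) hw
    have k2 := B2_kr hKn (by positivity : 0 < (1 - p) ^ 2) ha
    have k3 := B2_kr hKn (by positivity : 0 < p ^ 2) hb
    unfold Kr
    have : 2 * p * (1 - p) + (1 - p) ^ 2 + p ^ 2 = 1 := by ring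
    linarith
  · intro π hπ hπ1 hd
    have sm := score_minus hk (by linarith) ((j : ℝ) / M)
    have sp := score_plus hk (by linarith) ((j : ℝ) / M)
    rw [← hp, ← e0, ← e1] at sm sp
    have hE : 2 / (M : ℝ) * (2 * (2 * (k₁ + 1))) * K + 1 ≤ K * ε := by
      have h1 : 2 / (M : ℝ) * (2 * (2 * (k₁ + 1))) ≤ ε / 2 := by
        rw [div_mul_eq_mul_div, div_le_iff₀ hM0]
        linarith
      have h2 : 2 / (M : ℝ) * (2 * (2 * (k₁ + 1))) * K ≤ ε / 2 * K :=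
        mul_le_mul_of_nonneg_right h1 hK0.le
      linarith
    have w1 := B2_up (K := K) hw1
    have w2 := B2_up (K := K) (by linarith : (0 : ℝ) ≤ 2 * l1 j)
    have w3 := B2_up (K := K) (by linarith : (0 : ℝ) ≤ 2 * l0 j)
    unfold Ex
    constructor
    · exact B2_est (x := 2 * l1 j) (y := l0 j + l1 j - 1) (C := 2 * (k₁ + 1)) (B := 2 * k₀)
        (π₀ := (j : ℝ) / M) (δ := 2 / M) hK0 hπ hπ1 w2 w1 hd (by linarith) (by linarith)
        hw1 (by linarith) (by linarith) (by linarith) (by linarith) hE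
    · have hd' : |(1 - π) - (1 - (j : ℝ) / M)| ≤ 2 / M := by
        rw [show (1 - π) - (1 - (j : ℝ) / M) = -(π - (j : ℝ) / M) by ring, abs_neg]
        exact hd
      have h := B2_est (π := 1 - π) (x := 2 * l0 j) (y := l0 j + l1 j - 1) (C := 2 * (k₁ + 1))
        (B := 2 * k₀) (k := k₁ - 1)
        (π₀ := 1 - (j : ℝ) / M) (δ := 2 / M) hK0 (by linarith) (by linarith) w3 w1 hd'
        (by linarith) (by linarith) hw1 (by linarith) (by linarith) (by linarith)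
        (by linarith) hE
      have e : (1 : ℝ) - (1 - π) = π := by ring
      rw [e] at h
      exact h

end Pool.Agent.MPa9445a.SB
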