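import Pool.Agent.Lib.MP_a9445a_lc.Mg.G098

/-! The mode B finds the unbalanced targets. -/

set_option autoImplicit false

open Finset

namespace Pool.Agent.MPa9445a.SB

open Pool.Agent.MPa9445a.GL (Vc S)

variable {n : ℕ}

private theorem B5_num {d κ k₁ ε : ℝ} (hd : 0 < d) (hd' : d < 1 / 2) (hκ : 0 ≤ κ) (hk₁ : 1 ≤ k₁)
    (hε : 0 < ε) : ∃ δ : ℝ, 0 < δ ∧ ∀ t η : ℝ, 0 ≤ t → t ≤ δ → 0 ≤ η → η ≤ δ →
      (1 + t) * ((1 + η) * (κ + (k₁ - 1) * (d + η))) ≤ κ + (k₁ - 1) * d + ε := by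
  have hV : 0 ≤ κ + (k₁ - 1) * d := by
    have : 0 ≤ (k₁ - 1) * d := mul_nonneg (by linarith) hd.le
    linarith
  set V : ℝ := κ + (k₁ - 1) * d with hVd
  have hk : 0 ≤ k₁ - 1 := by linarith
  set k : ℝ := k₁ - 1 with hkd
  have hD : 0 < 3 * V + 4 * k + 1 := by linarith
  refine ⟨min 1 (ε / (3 * V + 4 * k + 1)), lt_min one_pos (div_pos hε hD), ?_⟩
  intro t η ht htd hη hηd
  have ht1 : t ≤ 1 := htd.trans (min_le_left _ _)
  have hη1 : η ≤ 1 := hηd.trans (min_le_left _ _)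
  have ht2 : t * (3 * V + 4 * k + 1) ≤ ε := by
    rw [← le_div_iff₀ hD]
    exact htd.trans (min_le_right _ _)
  have hη2 : η * (3 * V + 4 * k + 1) ≤ ε := by
    rw [← le_div_iff₀ hD]
    exact hηd.trans (min_le_right _ _)
  have h1 : κ + k * (d + η) = V + k * η := by rw [hVd]; ring
  rw [h1]
  set m : ℝ := max t η with hm
  have hmt : t ≤ m := le_max_left _ _
  have hmη : η ≤ m := le_max_right _ _
  have hm0 : 0 ≤ m := ht.trans hmt
  have hm1 : m ≤ 1 := max_le ht1 hη1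
  have hm2 : m * (3 * V + 4 * k + 1) ≤ ε := by
    rcases max_choice t η with h | h
    · rw [hm, h]; exact ht2
    · rw [hm, h]; exact hη2
  have hkm : 0 ≤ k * η := mul_nonneg hk hη
  have e1 : (1 + t) * ((1 + η) * (V + k * η)) ≤ (1 + m) * ((1 + m) * (V + k * m)) := by
    apply mul_le_mul (by linarith) _ _ (by linarith)
    · apply mul_le_mul (by linarith) _ (by positivity) (by linarith)
      have := mul_le_mul_of_nonneg_left hmη hk
      linarith
    · apply mul_nonneg (by linarith)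
      linarith
  have e2 : (1 + m) * ((1 + m) * (V + k * m)) ≤ (1 + 3 * m) * (V + k * m) := by
    have : 0 ≤ V + k * m := add_nonneg hV (mul_nonneg hk hm0)
    have h3 : (1 + m) * (1 + m) ≤ 1 + 3 * m := by nlinarith
    calc (1 + m) * ((1 + m) * (V + k * m)) = ((1 + m) * (1 + m)) * (V + k * m) := by ring
      _ ≤ _ := mul_le_mul_of_nonneg_right h3 this
  have e3 : (1 + 3 * m) * (V + k * m) ≤ V + m * (3 * V + 4 * k + 1) := by
    have h4 : k * (m * m) ≤ k * m := by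
      apply mul_le_mul_of_nonneg_left _ hk
      nlinarith
    nlinarith
  linarith

/-- The places where the vectors agree. -/
private theorem B5_card {Q : Finset (Fin n)} {u z : Vc n} (hu : u ∈ S (bl Q)) (hz : z ∈ S (bl Q)) :
    ((Q.filter fun v => z v = u v).card : ℝ) = Q.card - (df u z).card := by
  have h1 : Q.filter (fun v => z v = u v) = Q \ df u z := by
    ext v
    simp only [Finset.mem_filter, Finset.mem_sdiff, df, Finset.mem_univ, true_and, not_not]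
    constructor
    · rintro ⟨h, h'⟩; exact ⟨h, h'.symm⟩
    · rintro ⟨h, h'⟩; exact ⟨h, h'.symm⟩
  rw [h1, Finset.cast_card_sdiff (df_sub hu hz)]

private theorem B5_ag_mono {l : ℕ} {A B : Finset (Vc n)} (h : A ⊆ B) (u : Vc n)
    (I : Fin l → Fin n) : ag A u I ⊆ ag B u I :=
  Finset.filter_subset_filter _ h

private theorem B5_ag_sub {l : ℕ} (A : Finset (Vc n)) (u : Vc n)
    (I : Fin l → Fin n) : ag A u I ⊆ A :=
  Finset.filter_subset _ _

/-- The main lemma of mode B. PROOF. `m = #Q`, `A = {z ∈ 𝒮 | #(df u z) < d m}`, `B = {z ∈ 𝒮 | #(df u z) > (1 - d) m}`; `z ↦ -z` is a bijection of `A` and `B` (`df_neg`, `df_sub`), the others are at most `#𝒮 / n ^ 2`, so `#A = #B ≥ #𝒮 / 4` for `n ≥ 2`.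
`#{v ∈ Q | z v = u v} = m - #(df u z)`, so `agree` applies with `α = 1 - d`, `β = d` and gives `I`. With `A' = ag A u I`: `#A' ≥ (1 - d) ^ l * #𝒮 / 8`, `#(ag B u I) ≤ 2 (d / (1 - d)) ^ l * #A'`, the remaining elements of `ag 𝒮 u I` are at most
`#𝒮 / n ^ 2 ≤ 8 / ((1 - d) ^ l * n ^ 2) * #A'`. Apply `core` with `η = 2 (d / (1 - d)) ^ l + 8 / ((1 - d) ^ l * n ^ 2)`; choose `l` such that `2 (d / (1 - d)) ^ l` is small, then `n₀`, such that
`(1 + 1 / n) * (1 + η) * (κ + (k₁ - 1) * (d + η)) ≤ κ + (k₁ - 1) * d + ε`. `c = (1 - d) ^ l / 8`. -/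
theorem modeB {d κ k₁ ε : ℝ} (hd : 0 < d) (hd' : d < 1 / 2) (hκ : 0 ≤ κ) (hk₁ : 1 ≤ k₁)
    (hε : 0 < ε) : ∃ (l : ℕ) (c : ℝ) (n₀ : ℕ), 0 < c ∧ 0 < n₀ ∧ ∀ (n : ℕ), n₀ ≤ n →
      ∀ (Q : Finset (Fin n)), Q.Nonempty → ∀ (𝒮 : Finset (Vc n)), 𝒮 ⊆ S (bl Q) → 𝒮.Nonempty →
      (∀ z ∈ 𝒮, -z ∈ 𝒮) → ∀ u ∈ S (bl Q),
      n ^ 2 * (𝒮.filter fun z => d * Q.card ≤ ((df u z).card : ℝ) ∧
        ((df u z).card : ℝ) ≤ (1 - d) * Q.card).card ≤ 𝒮.card →
      ∃ I : Fin l → Fin n, (∀ i, I i ∈ Q) ∧ c * 𝒮.card ≤ (ag 𝒮 u I).card ∧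
        ∀ (K : ℕ) (σ : Sc n), (∀ v ∈ Q, Ex K κ k₁ (fq (ag 𝒮 u I) v) (σ.w v) (σ.a v) (σ.b v)) →
          c * 𝒮.card ≤ (n + 1) * ((ag 𝒮 u I).filter fun z => ((df u z).card : ℝ) < d * Q.card ∧
            (sc σ Q (df u z) u : ℝ) ≤ K * ((κ + (k₁ - 1) * d + ε) * Q.card)).card := by
  obtain ⟨δ, hδ, hnum⟩ := B5_num hd hd' hκ hk₁ hε
  have h1d : 0 < 1 - d := by linarith
  have hρ0 : 0 ≤ d / (1 - d) := div_nonneg hd.le h1d.le
  have hρ1 : d / (1 - d) < 1 := by
    rw [div_lt_one h1d]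
    linarith
  obtain ⟨l, hl⟩ := exists_pow_lt_of_lt_one (show (0 : ℝ) < δ / 4 by positivity) hρ1
  have hpl : 0 < (1 - d) ^ l := pow_pos h1d l
  obtain ⟨N, hN⟩ := exists_nat_gt (max (1 / δ) (16 / ((1 - d) ^ l * δ)))
  refine ⟨l, (1 - d) ^ l / 8, max N 2, by positivity, by omega, ?_⟩
  intro n hn Q hQ 𝒮 h𝒮 hne hsym u hu hmid
  have hn2 : 2 ≤ n := (le_max_right _ _).trans hn
  have hnN : N ≤ n := (le_max_left _ _).trans hn
  have hn0 : 0 < n := by omega
  have hnR0 : (0 : ℝ) < n := by exact_mod_cast hn0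
  have hnR2 : (2 : ℝ) ≤ n := by exact_mod_cast hn2
  have hnNR : (N : ℝ) ≤ n := by exact_mod_cast hnN
  have hm : (0 : ℝ) < Q.card := by exact_mod_cast hQ.card_pos
  have h𝒮0 : (0 : ℝ) < 𝒮.card := by exact_mod_cast hne.card_pos
  -- the three parts
  set A : Finset (Vc n) := 𝒮.filter fun z => ((df u z).card : ℝ) < d * Q.card with hA
  set B : Finset (Vc n) := 𝒮.filter fun z => (1 - d) * Q.card < ((df u z).card : ℝ) with hB
  set M : Finset (Vc n) := 𝒮.filter fun z => d * Q.card ≤ ((df u z).card : ℝ) ∧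
        ((df u z).card : ℝ) ≤ (1 - d) * Q.card with hM
  have hcov : 𝒮 ⊆ A ∪ (B ∪ M) := by
    intro z hz
    rw [hA, hB, hM]
    simp only [Finset.mem_union, Finset.mem_filter]
    rcases lt_or_ge ((df u z).card : ℝ) (d * Q.card) with h | h
    · exact Or.inl ⟨hz, h⟩
    · rcases lt_or_ge ((1 - d) * (Q.card : ℝ)) ((df u z).card : ℝ) with h' | h'
      · exact Or.inr (Or.inl ⟨hz, h'⟩)
      · exact Or.inr (Or.inr ⟨hz, h, h'⟩)
  have hAS : A ⊆ 𝒮 := Finset.filter_subset _ _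
  have hBS : B ⊆ 𝒮 := Finset.filter_subset _ _
  have hMS : M ⊆ 𝒮 := Finset.filter_subset _ _
  have hdneg : ∀ z ∈ 𝒮, ((df u (-z)).card : ℝ) = Q.card - (df u z).card := by
    intro z hz
    rw [df_neg hu (h𝒮 hz), Finset.cast_card_sdiff (df_sub hu (h𝒮 hz))]
  have hAB : A.card = B.card := by
    refine Finset.card_bij' (fun z _ => -z) (fun z _ => -z) ?_ ?_ ?_ ?_
    · intro z hz
      rw [hA, Finset.mem_filter] at hz
      rw [hB, Finset.mem_filter]
      refine ⟨hsym z hz.1, ?_⟩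
      rw [hdneg z hz.1]
      linarith [hz.2]
    · intro z hz
      rw [hB, Finset.mem_filter] at hz
      rw [hA, Finset.mem_filter]
      refine ⟨hsym z hz.1, ?_⟩
      rw [hdneg z hz.1]
      linarith [hz.2]
    · intro z _
      exact neg_neg z
    · intro z _
      exact neg_neg z
  have hABR : (A.card : ℝ) = B.card := by exact_mod_cast hAB
  have hMR : (n : ℝ) ^ 2 * M.card ≤ 𝒮.card := by exact_mod_cast hmid
  have hsum : (𝒮.card : ℝ) ≤ A.card + (B.card + M.card) := by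
    have h1 := Finset.card_le_card hcov
    have h2 := Finset.card_union_le A (B ∪ M)
    have h3 := Finset.card_union_le B M
    have h4 : 𝒮.card ≤ A.card + (B.card + M.card) := by omega
    exact_mod_cast h4
  have hM0 : (0 : ℝ) ≤ M.card := Nat.cast_nonneg _
  have hM4 : 4 * (M.card : ℝ) ≤ 𝒮.card := by
    have h4 : (4 : ℝ) ≤ (n : ℝ) ^ 2 := by nlinarith
    have := mul_le_mul_of_nonneg_right h4 hM0
    linarith
  have hA4 : (𝒮.card : ℝ) / 4 ≤ A.card := by
    rw [← hABR] at hsum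
    linarith
  have hA0 : (0 : ℝ) < A.card := by
    have : (0 : ℝ) < (𝒮.card : ℝ) / 4 := by positivity
    linarith
  -- agreement
  obtain ⟨I, hIQ, hI1, hI2⟩ := agree (n := n) hQ (u := u) (A := A) (B := B) (α := 1 - d) (β := d)
    hd.le h1d.le
    (by
      intro z hz
      rw [hA, Finset.mem_filter] at hz
      rw [B5_card hu (h𝒮 hz.1)]
      linarith [hz.2])
    (by
      intro z hz
      rw [hB, Finset.mem_filter] at hz
      rw [B5_card hu (h𝒮 hz.1)]
      linarith [hz.2]) l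
  have hA'8 : (1 - d) ^ l / 8 * 𝒮.card ≤ (ag A u I).card := by
    have h1 : (1 - d) ^ l * ((𝒮.card : ℝ) / 4) ≤ (1 - d) ^ l * A.card :=
      mul_le_mul_of_nonneg_left hA4 hpl.le
    linarith
  have hA'0 : (0 : ℝ) < (ag A u I).card := by
    have : (0 : ℝ) < (1 - d) ^ l / 8 * 𝒮.card := by positivity
    linarith
  have hA'ne : (ag A u I).Nonempty := by
    rw [← Finset.card_pos]
    exact_mod_cast hA'0
  have hB' : ((ag B u I).card : ℝ) ≤ 2 * (d / (1 - d)) ^ l * (ag A u I).card := by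
    rw [← hABR] at hI2
    have h1 : ((ag B u I).card : ℝ) * (1 - d) ^ l * A.card ≤
        (2 * d ^ l * (ag A u I).card) * A.card := by linarith
    have h2 : ((ag B u I).card : ℝ) * (1 - d) ^ l ≤ 2 * d ^ l * (ag A u I).card :=
      le_of_mul_le_mul_right h1 hA0
    rw [div_pow]
    have h3 : 2 * (d ^ l / (1 - d) ^ l) * ((ag A u I).card : ℝ) =
        (2 * d ^ l * (ag A u I).card) / (1 - d) ^ l := by ring
    rw [h3, le_div_iff₀ hpl]
    exact h2
  have hη2 : (M.card : ℝ) ≤ 8 / ((1 - d) ^ l * (n : ℝ) ^ 2) * (ag A u I).card := by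
    have h1 : (M.card : ℝ) ≤ 𝒮.card / (n : ℝ) ^ 2 := by
      rw [le_div_iff₀ (by positivity)]
      linarith
    have h2 : (𝒮.card : ℝ) ≤ 8 / (1 - d) ^ l * (ag A u I).card := by
      rw [div_mul_eq_mul_div, le_div_iff₀ hpl]
      linarith
    have h3 : (𝒮.card : ℝ) / (n : ℝ) ^ 2 ≤ (8 / (1 - d) ^ l * (ag A u I).card) / (n : ℝ) ^ 2 :=
      div_le_div_of_nonneg_right h2 (by positivity)
    have h4 : (8 / (1 - d) ^ l * ((ag A u I).card : ℝ)) / (n : ℝ) ^ 2 =
        8 / ((1 - d) ^ l * (n : ℝ) ^ 2) * (ag A u I).card := by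
      field_simp
    linarith
  set η : ℝ := 2 * (d / (1 - d)) ^ l + 8 / ((1 - d) ^ l * (n : ℝ) ^ 2) with hη
  have hη0 : 0 ≤ η := by
    rw [hη]
    have h1 : 0 ≤ (d / (1 - d)) ^ l := pow_nonneg hρ0 l
    have h2 : 0 ≤ 8 / ((1 - d) ^ l * (n : ℝ) ^ 2) := by positivity
    linarith
  have hηδ : η ≤ δ := by
    have h1 : 8 / ((1 - d) ^ l * (n : ℝ) ^ 2) ≤ δ / 2 := by
      have h2 : 16 / ((1 - d) ^ l * δ) ≤ n := by
        have := (le_max_right (1 / δ) (16 / ((1 - d) ^ l * δ))).trans_lt hN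
        linarith
      rw [div_le_iff₀ (by positivity)] at h2
      rw [div_le_div_iff₀ (by positivity) (by norm_num)]
      have h3 : (n : ℝ) * ((1 - d) ^ l * δ) ≤ (n : ℝ) * ((1 - d) ^ l * δ) * n := by
        have h4 : 0 ≤ (n : ℝ) * ((1 - d) ^ l * δ) := by positivity
        nlinarith
      nlinarith
    rw [hη]
    linarith
  have htδ : 1 / (n : ℝ) ≤ δ := by
    have h2 : 1 / δ ≤ n := by
      have := (le_max_left (1 / δ) (16 / ((1 - d) ^ l * δ))).trans_lt hN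
      linarith
    rw [div_le_iff₀ hδ] at h2
    rw [div_le_iff₀ hnR0]
    linarith
  have hbound := hnum (1 / (n : ℝ)) η (by positivity) htδ hη0 hηδ
  have hrest : (((ag 𝒮 u I) \ (ag A u I)).card : ℝ) ≤ η * (ag A u I).card := by
    have h1 : (ag 𝒮 u I) \ (ag A u I) ⊆ ag B u I ∪ M := by
      intro z hz
      rw [Finset.mem_sdiff] at hz
      obtain ⟨hz1, hz2⟩ := hz
      have hz1' := hz1
      unfold ag at hz1
      rw [Finset.mem_filter] at hz1
      have hz3 : z ∉ A := by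
        intro h
        apply hz2
        unfold ag
        exact Finset.mem_filter.2 ⟨h, hz1.2⟩
      rcases Finset.mem_union.1 (hcov hz1.1) with h | h
      · exact absurd h hz3
      · rcases Finset.mem_union.1 h with h | h
        · refine Finset.mem_union_left _ ?_
          unfold ag
          exact Finset.mem_filter.2 ⟨h, hz1.2⟩
        · exact Finset.mem_union_right _ h
    have h2 : (((ag 𝒮 u I) \ (ag A u I)).card : ℝ) ≤ (ag B u I).card + M.card := by
      have h3 := (Finset.card_le_card h1).trans (Finset.card_union_le _ _)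
      exact_mod_cast h3
    rw [hη, add_mul]
    linarith
  refine ⟨I, hIQ, ?_, ?_⟩
  · have h1 : ((ag A u I).card : ℝ) ≤ (ag 𝒮 u I).card := by
      exact_mod_cast Finset.card_le_card (B5_ag_mono hAS u I)
    linarith
  · intro K σ hEx
    have hcore := core (n := n) (d := d) (κ := κ) (k₁ := k₁) (η := η) hd.le hκ hk₁ hη0
      (Q := Q) (S' := ag 𝒮 u I) ((B5_ag_sub _ _ _).trans h𝒮) (u := u) hu (A := ag A u I)
      (B5_ag_mono hAS u I) hA'ne
      (by
        intro z hz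
        have := B5_ag_sub _ _ _ hz
        rw [hA, Finset.mem_filter] at this
        exact this.2) hrest hn0 (K := K) (σ := σ) hEx
    have hsub : ((ag A u I).filter fun z => (sc σ Q (df u z) u : ℝ) ≤
        (1 + 1 / (n : ℝ)) * (K * ((1 + η) * (κ + (k₁ - 1) * (d + η)) * Q.card))) ⊆
        ((ag 𝒮 u I).filter fun z => ((df u z).card : ℝ) < d * Q.card ∧
            (sc σ Q (df u z) u : ℝ) ≤ K * ((κ + (k₁ - 1) * d + ε) * Q.card)) := by
      intro z hz
      rw [Finset.mem_filter] at hz ⊢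
      refine ⟨B5_ag_mono hAS u I hz.1, ?_, ?_⟩
      · have := B5_ag_sub _ _ _ hz.1
        rw [hA, Finset.mem_filter] at this
        exact this.2
      · refine hz.2.trans ?_
        have h1 : (1 + 1 / (n : ℝ)) * (K * ((1 + η) * (κ + (k₁ - 1) * (d + η)) * Q.card)) =
            ((1 + 1 / (n : ℝ)) * ((1 + η) * (κ + (k₁ - 1) * (d + η)))) * (K * Q.card) := by ring
        have h2 : (K : ℝ) * ((κ + (k₁ - 1) * d + ε) * Q.card) =
            (κ + (k₁ - 1) * d + ε) * (K * Q.card) := by ring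
        rw [h1, h2]
        exact mul_le_mul_of_nonneg_right hbound (by positivity)
    have hcard : (((ag A u I).filter fun z => (sc σ Q (df u z) u : ℝ) ≤
        (1 + 1 / (n : ℝ)) * (K * ((1 + η) * (κ + (k₁ - 1) * (d + η)) * Q.card))).card : ℝ) ≤
        (((ag 𝒮 u I).filter fun z => ((df u z).card : ℝ) < d * Q.card ∧
            (sc σ Q (df u z) u : ℝ) ≤ K * ((κ + (k₁ - 1) * d + ε) * Q.card)).card : ℝ) := by
      exact_mod_cast Finset.card_le_card hsub
    have hfin := mul_le_mul_of_nonneg_left hcard (show (0 : ℝ) ≤ (n : ℝ) + 1 by positivity)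
    linarith

end Pool.Agent.MPa9445a.SB
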