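import Pool.Agent.Lib.MP_a9445a_lc.Mg.G146

set_option autoImplicit false

namespace Pool.Agent.MPa9445a.SB

open Real Set

/-- Partial sum of the series of `artanh`. -/
private theorem artanh_ge {u : ℝ} (h0 : 0 ≤ u) (h1 : u < 1) :
    2 * (u + u ^ 3 / 3 + u ^ 5 / 5 + u ^ 7 / 7 + u ^ 9 / 9 + u ^ 11 / 11) ≤
      Real.log (1 + u) - Real.log (1 - u) := by
  have hs := Real.hasSum_log_sub_log_of_abs_lt_one (x := u) (by rw [abs_of_nonneg h0]; exact h1)
  have := sum_le_hasSum (Finset.range 6) (fun i _ => by positivity) hs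
  have h2 : ∑ i ∈ Finset.range 6, (2 : ℝ) * (1 / (2 * (i : ℝ) + 1)) * u ^ (2 * i + 1) =
      2 * (u + u ^ 3 / 3 + u ^ 5 / 5 + u ^ 7 / 7 + u ^ 9 / 9 + u ^ 11 / 11) := by
    simp only [Finset.sum_range_succ, Finset.sum_range_zero]
    norm_num
    ring
  rw [← h2]
  exact this

/-- The difference of the two sides as a function of `u = 1 - 2 x`. -/
private noncomputable def F (u : ℝ) : ℝ :=
  Real.log 2 - (u ^ 2 / 2 + u ^ 4 / 12 + u ^ 6 / 30 + u ^ 8 / 56 + u ^ 10 / 90 + u ^ 12 / 132) -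
    Real.binEntropy ((1 - u) / 2)

private theorem F_deriv {u : ℝ} (h0 : 0 < u) (h1 : u < 1) :
    HasDerivAt F ((Real.log (1 + u) - Real.log (1 - u)) / 2 -
      (u + u ^ 3 / 3 + u ^ 5 / 5 + u ^ 7 / 7 + u ^ 9 / 9 + u ^ 11 / 11)) u := by
  have hb : HasDerivAt Real.binEntropy (Real.log (1 - (1 - u) / 2) - Real.log ((1 - u) / 2))
      ((1 - u) / 2) := by
    apply Real.hasDerivAt_binEntropy
    · intro h; linarith
    · intro h; linarith
  have hx : HasDerivAt (fun u : ℝ => (1 - u) / 2) (-1 / 2) u := by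
    have := ((hasDerivAt_id u).const_sub 1).div_const 2
    simpa using this
  have hc := hb.comp u hx
  have hp : HasDerivAt (fun u : ℝ => Real.log 2 - (u ^ 2 / 2 + u ^ 4 / 12 + u ^ 6 / 30 + u ^ 8 / 56 +
      u ^ 10 / 90 + u ^ 12 / 132)) (-(u + u ^ 3 / 3 + u ^ 5 / 5 + u ^ 7 / 7 + u ^ 9 / 9 + u ^ 11 / 11)) u := by
    have e2 := (hasDerivAt_pow 2 u).div_const 2
    have e4 := (hasDerivAt_pow 4 u).div_const 12
    have e6 := (hasDerivAt_pow 6 u).div_const 30
    have e8 := (hasDerivAt_pow 8 u).div_const 56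
    have e10 := (hasDerivAt_pow 10 u).div_const 90
    have e12 := (hasDerivAt_pow 12 u).div_const 132
    have := (((((e2.add e4).add e6).add e8).add e10).add e12).const_sub (Real.log 2)
    refine HasDerivAt.congr_deriv this ?_
    norm_num
    ring
  have hF := hp.sub hc
  refine HasDerivAt.congr_deriv hF ?_
  have e1 : (1 : ℝ) - (1 - u) / 2 = (1 + u) / 2 := by ring
  rw [e1, Real.log_div (by linarith) (by norm_num), Real.log_div (by linarith) (by norm_num)]
  ring

/-- The series of the entropy at `1 / 2`. -/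
theorem binEntropy_le_series {x : ℝ} (h0 : 0 ≤ x) (h1 : x ≤ 1) :
    Real.binEntropy x ≤ Real.log 2 - ((1 - 2 * x) ^ 2 / 2 + (1 - 2 * x) ^ 4 / 12 +
      (1 - 2 * x) ^ 6 / 30 + (1 - 2 * x) ^ 8 / 56 + (1 - 2 * x) ^ 10 / 90 + (1 - 2 * x) ^ 12 / 132) := by
  have hcont : ContinuousOn F (Icc 0 1) := by
    have : Continuous F := by
      unfold F
      have := Real.binEntropy_continuous
      fun_prop
    exact this.continuousOn
  have hmono : MonotoneOn F (Icc 0 1) := by
    apply monotoneOn_of_deriv_nonneg (convex_Icc 0 1) hcont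
    · intro u hu
      rw [interior_Icc] at hu
      exact (F_deriv hu.1 hu.2).differentiableAt.differentiableWithinAt
    · intro u hu
      rw [interior_Icc] at hu
      rw [(F_deriv hu.1 hu.2).deriv]
      have := artanh_ge hu.1.le hu.2
      linarith
  have hF0 : F 0 = 0 := by
    unfold F
    have e : ((1 : ℝ) - 0) / 2 = 2⁻¹ := by norm_num
    rw [e, Real.binEntropy_two_inv]
    norm_num
  have key : ∀ u : ℝ, 0 ≤ u → u ≤ 1 → 0 ≤ F u := by
    intro u hu0 hu1
    have := hmono (left_mem_Icc.2 zero_le_one) ⟨hu0, hu1⟩ hu0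
    linarith
  rcases le_total x (1 / 2) with h | h
  · have := key (1 - 2 * x) (by linarith) (by linarith)
    unfold F at this
    have e : (1 - (1 - 2 * x)) / 2 = x := by ring
    rw [e] at this
    linarith
  · have := key (2 * x - 1) (by linarith) (by linarith)
    unfold F at this
    have e : (1 - (2 * x - 1)) / 2 = 1 - x := by ring
    rw [e, Real.binEntropy_one_sub] at this
    have e2 : (2 * x - 1) ^ 2 = (1 - 2 * x) ^ 2 := by ring
    have e4 : (2 * x - 1) ^ 4 = (1 - 2 * x) ^ 4 := by ring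
    have e6 : (2 * x - 1) ^ 6 = (1 - 2 * x) ^ 6 := by ring
    have e8 : (2 * x - 1) ^ 8 = (1 - 2 * x) ^ 8 := by ring
    have e10 : (2 * x - 1) ^ 10 = (1 - 2 * x) ^ 10 := by ring
    have e12 : (2 * x - 1) ^ 12 = (1 - 2 * x) ^ 12 := by ring
    rw [e2, e4, e6, e8, e10, e12] at this
    linarith

/-- Bernoulli's inequality for the powers of a nonnegative number, tangent at `a`. -/
private theorem pow_tangent {v a : ℝ} (hv : 0 ≤ v) (ha : 0 ≤ a) (k : ℕ) :
    a ^ (k + 1) + (k + 1) * a ^ k * (v - a) ≤ v ^ (k + 1) := by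
  induction k with
  | zero => simp
  | succ k ih =>
    have h1 : v * (a ^ (k + 1) + (k + 1) * a ^ k * (v - a)) ≤ v * v ^ (k + 1) :=
      mul_le_mul_of_nonneg_left ih hv
    have h2 : 0 ≤ ((k : ℝ) + 1) * a ^ k * (v - a) ^ 2 := by positivity
    have e : v * (a ^ (k + 1) + (k + 1) * a ^ k * (v - a)) =
        a ^ (k + 1 + 1) + ((k + 1 : ℕ) + 1) * a ^ (k + 1) * (v - a) + (k + 1) * a ^ k * (v - a) ^ 2 := by
      push_cast
      ring
    have e2 : v * v ^ (k + 1) = v ^ (k + 1 + 1) := by ring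
    linarith

/-- (I0), first pair of constants (natural logarithm). -/
theorem entropy_A {x : ℝ} (h0 : 0 ≤ x) (h1 : x ≤ 1) :
    Real.binEntropy x ≤ (0.23662 + 3.07 * (x * (1 - x))) * Real.log 2 := by
  have hs := binEntropy_le_series h0 h1
  set v := (1 - 2 * x) ^ 2 with hv
  have hv0 : 0 ≤ v := sq_nonneg _
  have e4 : (1 - 2 * x) ^ 4 = v ^ 2 := by rw [hv]; ring
  have e6 : (1 - 2 * x) ^ 6 = v ^ 3 := by rw [hv]; ring
  have e8 : (1 - 2 * x) ^ 8 = v ^ 4 := by rw [hv]; ring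
  have e10 : (1 - 2 * x) ^ 10 = v ^ 5 := by rw [hv]; ring
  have e12 : (1 - 2 * x) ^ 12 = v ^ 6 := by rw [hv]; ring
  rw [e4, e6, e8, e10, e12] at hs
  have hx : x * (1 - x) = (1 - v) / 4 := by rw [hv]; ring
  rw [hx]
  have l1 := Real.log_two_gt_d9
  have l2 := Real.log_two_lt_d9
  have t2 := pow_tangent (v := v) (a := 0.172) hv0 (by norm_num) 1
  have t3 := pow_tangent (v := v) (a := 0.172) hv0 (by norm_num) 2
  have t4 := pow_tangent (v := v) (a := 0.172) hv0 (by norm_num) 3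
  have t5 := pow_tangent (v := v) (a := 0.172) hv0 (by norm_num) 4
  have t6 := pow_tangent (v := v) (a := 0.172) hv0 (by norm_num) 5
  norm_num at t2 t3 t4 t5 t6
  have hv1 : v ≤ 1 := by rw [hv]; nlinarith
  nlinarith

/-- (I0), second pair of constants (natural logarithm). -/
theorem entropy_B {x : ℝ} (h0 : 0 ≤ x) (h1 : x ≤ 1) :
    Real.binEntropy x ≤ (0.20687 + 3.225 * (x * (1 - x))) * Real.log 2 := by
  have hs := binEntropy_le_series h0 h1
  set v := (1 - 2 * x) ^ 2 with hv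
  have hv0 : 0 ≤ v := sq_nonneg _
  have e4 : (1 - 2 * x) ^ 4 = v ^ 2 := by rw [hv]; ring
  have e6 : (1 - 2 * x) ^ 6 = v ^ 3 := by rw [hv]; ring
  have e8 : (1 - 2 * x) ^ 8 = v ^ 4 := by rw [hv]; ring
  have e10 : (1 - 2 * x) ^ 10 = v ^ 5 := by rw [hv]; ring
  have e12 : (1 - 2 * x) ^ 12 = v ^ 6 := by rw [hv]; ring
  rw [e4, e6, e8, e10, e12] at hs
  have hx : x * (1 - x) = (1 - v) / 4 := by rw [hv]; ring
  rw [hx]
  have l1 := Real.log_two_gt_d9
  have l2 := Real.log_two_lt_d9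
  have t2 := pow_tangent (v := v) (a := 0.28951) hv0 (by norm_num) 1
  have t3 := pow_tangent (v := v) (a := 0.28951) hv0 (by norm_num) 2
  have t4 := pow_tangent (v := v) (a := 0.28951) hv0 (by norm_num) 3
  have t5 := pow_tangent (v := v) (a := 0.28951) hv0 (by norm_num) 4
  have t6 := pow_tangent (v := v) (a := 0.28951) hv0 (by norm_num) 5
  norm_num at t2 t3 t4 t5 t6
  have hv1 : v ≤ 1 := by rw [hv]; nlinarith
  nlinarith

theorem hh_eq (x : ℝ) : hh x = Real.binEntropy x / Real.log 2 := by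
  rw [hh, Real.binEntropy_eq_negMulLog_add_negMulLog_one_sub]
  simp only [Real.negMulLog, Real.logb]
  ring

/-- (I0), first pair of constants. -/
theorem I0A (x : ℝ) (h0 : 0 < x) (h1 : x < 1) : hh x ≤ 23662 / 100000 + 307 / 100 * (x * (1 - x)) := by
  rw [hh_eq, div_le_iff₀ (Real.log_pos (by norm_num))]
  exact (entropy_A h0.le h1.le).trans (le_of_eq (by norm_num))

/-- (I0), second pair of constants. -/
theorem I0B (x : ℝ) (h0 : 0 < x) (h1 : x < 1) : hh x ≤ 20687 / 100000 + 3225 / 1000 * (x * (1 - x)) := by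
  rw [hh_eq, div_le_iff₀ (Real.log_pos (by norm_num))]
  exact (entropy_B h0.le h1.le).trans (le_of_eq (by norm_num))

end Pool.Agent.MPa9445a.SB
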