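import Pool.Agent.Lib.MP_a9445a_lc.Mg.G103
import Pool.Agent.Lib.MP_a9445a_lc.Mg.G098
/-! The numbers of the levels. -/

set_option autoImplicit false

open Finset

namespace Pool.Agent.MPa9445a.SB

open Pool.Agent.MPa9445a.SN (kb)
open Pool.Agent.MPa9445a.GL (LL pl)

/-- Powers are smaller than exponentials. -/
private theorem D6a_ev (k : ℕ) (c : ℝ) (hc : 0 < c) :
    ∃ n₀ : ℕ, ∀ n ≥ n₀, ((n : ℝ) + 2) ^ k ≤ (2 : ℝ) ^ (c * (n : ℝ)) := by
  have hr : (1 : ℝ) < 2 ^ c := Real.one_lt_rpow (by norm_num) hc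
  have ht := tendsto_pow_const_div_const_pow_of_one_lt k hr
  have hpos : (0 : ℝ) < 1 / 2 ^ k := by positivity
  have hev := ht.eventually (ge_mem_nhds hpos)
  obtain ⟨n₀, hn₀⟩ := Filter.eventually_atTop.1 hev
  refine ⟨max n₀ 2, fun n hn => ?_⟩
  have h1 := hn₀ n (le_trans (le_max_left _ _) hn)
  have h2 : (2 : ℝ) ≤ n := by exact_mod_cast le_trans (le_max_right _ _) hn
  have h3 : (0 : ℝ) < ((2 : ℝ) ^ c) ^ n := by positivity
  rw [div_le_div_iff₀ h3 (by positivity)] at h1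
  rw [Real.rpow_mul (by norm_num), Real.rpow_natCast]
  calc ((n : ℝ) + 2) ^ k ≤ (2 * (n : ℝ)) ^ k := pow_le_pow_left₀ (by positivity) (by linarith) k
    _ = (n : ℝ) ^ k * 2 ^ k := by rw [mul_pow]; ring
    _ ≤ 1 * ((2 : ℝ) ^ c) ^ n := h1
    _ = ((2 : ℝ) ^ c) ^ n := one_mul _

private theorem D6a_y : (10 / 7 : ℝ) ≤ 2 ^ (5 / 9 : ℝ) := by
  have h : ((2 : ℝ) ^ (5 / 9 : ℝ)) ^ (9 : ℕ) = 32 := by
    rw [← Real.rpow_natCast, ← Real.rpow_mul (by norm_num)]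
    norm_num
  by_contra hc
  rw [not_le] at hc
  have h3 : ((2 : ℝ) ^ (5 / 9 : ℝ)) ^ (9 : ℕ) < (10 / 7 : ℝ) ^ (9 : ℕ) :=
    pow_lt_pow_left₀ hc (by positivity) (by norm_num)
  rw [h] at h3
  norm_num at h3

/-- From the middle to `s`. -/
private theorem D6a_ratio (m s : ℕ) (hs : 4140 * m ≤ 10000 * s) (d : ℕ) (hd : s + d ≤ m) :
    ((m.choose (s + d) : ℕ) : ℝ) ≤ (10 / 7 : ℝ) ^ d * (m.choose s : ℝ) := by
  induction d with
  | zero => simp
  | succ d ih =>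
    have h1 := ih (by omega)
    have h2 : m.choose (s + d + 1) * (s + d + 1) = m.choose (s + d) * (m - (s + d)) :=
      Nat.choose_succ_right_eq m (s + d)
    have h3 : ((m.choose (s + d + 1) : ℕ) : ℝ) * ((s : ℝ) + d + 1) =
        (m.choose (s + d) : ℝ) * ((m : ℝ) - (s + d)) := by
      have h4 : ((m - (s + d) : ℕ) : ℝ) = (m : ℝ) - (s + d) := by
        rw [Nat.cast_sub (by omega)]
        push_cast
        ring
      rw [← h4]
      exact_mod_cast h2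
    have h5 : (m : ℝ) - (s + d) ≤ 10 / 7 * ((s : ℝ) + d + 1) := by
      have h6 : (4140 : ℝ) * m ≤ 10000 * s := by exact_mod_cast hs
      have h7 : (0 : ℝ) ≤ d := Nat.cast_nonneg d
      have h8 : (0 : ℝ) ≤ s := Nat.cast_nonneg s
      linarith
    have h9 : (0 : ℝ) < (s : ℝ) + d + 1 := by positivity
    have h10 : ((m.choose (s + d + 1) : ℕ) : ℝ) ≤ 10 / 7 * (m.choose (s + d) : ℝ) := by
      have h11 : ((m.choose (s + d + 1) : ℕ) : ℝ) * ((s : ℝ) + d + 1) ≤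
          (10 / 7 * (m.choose (s + d) : ℝ)) * ((s : ℝ) + d + 1) := by
        rw [h3]
        calc (m.choose (s + d) : ℝ) * ((m : ℝ) - (s + d))
            ≤ (m.choose (s + d) : ℝ) * (10 / 7 * ((s : ℝ) + d + 1)) :=
              mul_le_mul_of_nonneg_left h5 (by positivity)
          _ = (10 / 7 * (m.choose (s + d) : ℝ)) * ((s : ℝ) + d + 1) := by ring
      exact le_of_mul_le_mul_right h11 h9
    calc ((m.choose (s + (d + 1)) : ℕ) : ℝ) ≤ 10 / 7 * (m.choose (s + d) : ℝ) := h10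
      _ ≤ 10 / 7 * ((10 / 7 : ℝ) ^ d * (m.choose s : ℝ)) :=
        mul_le_mul_of_nonneg_left h1 (by norm_num)
      _ = (10 / 7 : ℝ) ^ (d + 1) * (m.choose s : ℝ) := by ring

/-- The lower bound for `s ≤ m / 2`. -/
private theorem D6a_low {m s : ℕ} (hs : 4140 * m ≤ 10000 * s) (hs2 : s ≤ m / 2)
    (hm : ((m : ℝ) + 2) ^ 1 ≤ (2 : ℝ) ^ (1 / 1000 * (m : ℝ))) :
    (2 : ℝ) ^ (95 / 100 * (m : ℝ)) ≤ m.choose s := by
  have h1 := D6a_ratio m s hs (m / 2 - s) (by omega)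
  have e1 : s + (m / 2 - s) = m / 2 := by omega
  rw [e1] at h1
  -- the middle coefficient
  have h2 : (2 : ℝ) ^ m ≤ ((m : ℝ) + 1) * (m.choose (m / 2) : ℝ) := by
    have h3 : (2 : ℕ) ^ m ≤ (m + 1) * m.choose (m / 2) := by
      rw [← Nat.sum_range_choose m]
      calc ∑ k ∈ range (m + 1), m.choose k ≤ ∑ k ∈ range (m + 1), m.choose (m / 2) :=
            Finset.sum_le_sum fun k _ => Nat.choose_le_middle k m
        _ = (m + 1) * m.choose (m / 2) := by simp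
    exact_mod_cast h3
  have h4 : (10 / 7 : ℝ) ^ (m / 2 - s) ≤ (2 : ℝ) ^ (48 / 1000 * (m : ℝ)) := by
    calc (10 / 7 : ℝ) ^ (m / 2 - s) ≤ ((2 : ℝ) ^ (5 / 9 : ℝ)) ^ (m / 2 - s) :=
          pow_le_pow_left₀ (by norm_num) D6a_y _
      _ = (2 : ℝ) ^ (5 / 9 * ((m / 2 - s : ℕ) : ℝ)) := by
          rw [Real.rpow_mul (by norm_num), Real.rpow_natCast]
      _ ≤ (2 : ℝ) ^ (48 / 1000 * (m : ℝ)) := by
          refine Real.rpow_le_rpow_of_exponent_le (by norm_num) ?_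
          have h5 : 10000 * (m / 2 - s) ≤ 860 * m := by omega
          have h6 : (10000 : ℝ) * ((m / 2 - s : ℕ) : ℝ) ≤ 860 * m := by exact_mod_cast h5
          have h7 : (0 : ℝ) ≤ m := Nat.cast_nonneg m
          linarith
  have h8 : (0 : ℝ) < (m.choose s : ℝ) := by
    have : 0 < m.choose s := Nat.choose_pos (by omega)
    exact_mod_cast this
  -- all together
  have h9 : (2 : ℝ) ^ (m : ℝ) ≤ (2 : ℝ) ^ (1 / 1000 * (m : ℝ)) * ((2 : ℝ) ^ (48 / 1000 * (m : ℝ)) * (m.choose s : ℝ)) := by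
    rw [Real.rpow_natCast]
    calc (2 : ℝ) ^ m ≤ ((m : ℝ) + 1) * (m.choose (m / 2) : ℝ) := h2
      _ ≤ ((m : ℝ) + 1) * ((10 / 7 : ℝ) ^ (m / 2 - s) * (m.choose s : ℝ)) :=
        mul_le_mul_of_nonneg_left h1 (by positivity)
      _ ≤ ((m : ℝ) + 1) * ((2 : ℝ) ^ (48 / 1000 * (m : ℝ)) * (m.choose s : ℝ)) := by
        refine mul_le_mul_of_nonneg_left (mul_le_mul_of_nonneg_right h4 h8.le) (by positivity)
      _ ≤ (2 : ℝ) ^ (1 / 1000 * (m : ℝ)) * ((2 : ℝ) ^ (48 / 1000 * (m : ℝ)) * (m.choose s : ℝ)) := by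
        refine mul_le_mul_of_nonneg_right ?_ (by positivity)
        rw [pow_one] at hm
        linarith
  have h10 : (2 : ℝ) ^ (m : ℝ) = (2 : ℝ) ^ (1 / 1000 * (m : ℝ)) * ((2 : ℝ) ^ (48 / 1000 * (m : ℝ)) *
      (2 : ℝ) ^ (951 / 1000 * (m : ℝ))) := by
    rw [← Real.rpow_add (by norm_num), ← Real.rpow_add (by norm_num)]
    congr 1
    ring
  rw [h10] at h9
  have h11 : (2 : ℝ) ^ (951 / 1000 * (m : ℝ)) ≤ (m.choose s : ℝ) :=
    le_of_mul_le_mul_left (le_of_mul_le_mul_left h9 (by positivity)) (by positivity)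
  refine le_trans (Real.rpow_le_rpow_of_exponent_le (by norm_num) ?_) h11
  have h7 : (0 : ℝ) ≤ m := Nat.cast_nonneg m
  linarith

/-- Lower bound for the binomial coefficients in the window. PROOF. `C(m, m/2) ≥ 2 ^ m / (m + 1)` and `C(m, k + 1) / C(m, k) = (m - k) / (k + 1)`: going from the middle to `s` costs at most a factor `(0.414 / 0.586) ^ (0.086 m + 1)`, `0.086 * log₂ (0.586 / 0.414) ≤ 0.0432`; so
`C(m, s) ≥ 2 ^ (0.956 m) / (2 (m + 1))`, and `m + 1 ≤ 2 ^ (0.005 m)` for large `m`. -/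
theorem choose_ge : ∃ m₀, ∀ m ≥ m₀, ∀ s, Wi 4140 m s → (2 : ℝ) ^ (95 / 100 * (m : ℝ)) ≤ m.choose s := by
  obtain ⟨m₀, hm₀⟩ := D6a_ev 1 (1 / 1000) (by norm_num)
  refine ⟨m₀, fun m hm s hs => ?_⟩
  obtain ⟨h1, h2⟩ := hs
  rcases Nat.lt_or_ge (m / 2) s with h | h
  · have hsm : s ≤ m := by omega
    rw [← Nat.choose_symm hsm]
    refine D6a_low ?_ ?_ (hm₀ m hm)
    · omega
    · omega
  · exact D6a_low h1 h (hm₀ m hm)

/-- Level 2. PROOF. `m ≤ 0.5001 n`, `0.414 m ≤ s ≤ 0.586 m`; with `C = C(m, s)`: `2 ^ g2 ≤ 2 ^ (2 g1) / C` and `2 ^ g2 ≥ 2 ^ (2 g1) / (2 C)` (`clog`; `clog C ≤ m ≤ 2 g1`), `2 ^ (2 g1) ≥ 2 ^ (0.666 n - 2)`.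
`h1`: `C ≥ 2 ^ (0.95 m)` (`choose_ge`): `2 ^ g2 ≤ 2 ^ (0.666 n - 0.95 * 0.4999 n) = 2 ^ (0.1911 n)` and `s ≥ 0.414 * 0.4999 n = 0.2069 n`. `h2`: `l2C` (`C * 2 ^ ((rr + 0.00012) n) ≤ 2 ^ (0.666 n)`). `h3`: `l2U`. `h4`: `c = 1`, the sum is at most `2 ^ s`. `gs`, `kbJ`: from `h1` and `c1 * lg n ≤ n`. -/
theorem num2U : ∃ n₀, ∀ n ≥ n₀, ∀ m s, Wi 4999 n m → Wi 4140 m s →
    NumU n (Rc n) 3550 s (g2 n m s) (fun _ => 1) 1000 := by
  obtain ⟨m₀, hm₀⟩ := choose_ge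
  obtain ⟨n₁, hn₁⟩ := D6a_ev 5 (1 / 100) (by norm_num)
  obtain ⟨n₂, hn₂⟩ := D6a_ev 40 (1 / 10000) (by norm_num)
  obtain ⟨n₃, hn₃⟩ := D6a_ev 30 (1 / 2) (by norm_num)
  refine ⟨max (max n₁ n₂) (max n₃ (max (3 * m₀) 1000000)), fun n hn m s hm hs => ?_⟩
  have hn1 : n₁ ≤ n := le_trans (le_trans (le_max_left _ _) (le_max_left _ _)) hn
  have hn2 : n₂ ≤ n := le_trans (le_trans (le_max_right _ _) (le_max_left _ _)) hn
  have hn3 : n₃ ≤ n := le_trans (le_trans (le_max_left _ _) (le_max_right _ _)) hn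
  have hn4 : 3 * m₀ ≤ n :=
    le_trans (le_trans (le_trans (le_max_left _ _) (le_max_right _ _)) (le_max_right _ _)) hn
  have hn5 : 1000000 ≤ n :=
    le_trans (le_trans (le_trans (le_max_right _ _) (le_max_right _ _)) (le_max_right _ _)) hn
  obtain ⟨hma, hmb⟩ := hm
  obtain ⟨hsa, hsb⟩ := hs
  have hms : m₀ ≤ m := by omega
  have hsm : s ≤ m := by omega
  have hmn : m ≤ n := by omega
  have hCpos : 0 < m.choose s := Nat.choose_pos hsm
  -- real forms of the windows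
  have hnr : (1000000 : ℝ) ≤ n := by exact_mod_cast hn5
  have rma : (4999 : ℝ) * n ≤ 10000 * m := by exact_mod_cast hma
  have rmb : (10000 : ℝ) * m ≤ 5001 * n := by
    have : 10000 * m ≤ 5001 * n := by omega
    exact_mod_cast this
  have rsa : (4140 : ℝ) * m ≤ 10000 * s := by exact_mod_cast hsa
  have rsb : (10000 : ℝ) * s ≤ 5860 * m := by
    have : 10000 * s ≤ 5860 * m := by omega
    exact_mod_cast this
  have e1 : (dl : ℝ) = 1 / 10000 := rfl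
  have e2 : (dA : ℝ) = 207 / 500 := rfl
  have e3 : (rr : ℝ) = 331 / 2000 := rfl
  have hm1 : (m : ℝ) ≤ (1 / 2 + dl) * n := by rw [e1]; linarith
  have hs1 : dA * m ≤ s := by rw [e2]; linarith
  have hs2 : (s : ℝ) ≤ (1 - dA) * m := by rw [e2]; linarith
  -- the numbers
  have hcl1 : m.choose s ≤ 2 ^ Nat.clog 2 (m.choose s) := Nat.le_pow_clog (by norm_num) _
  have hcl2 : 2 ^ Nat.clog 2 (m.choose s) ≤ 2 * m.choose s := by
    rcases Nat.lt_or_ge 1 (m.choose s) with h | h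
    · have h2 := Nat.pow_pred_clog_lt_self (b := 2) (by norm_num) h
      have h3 : 0 < Nat.clog 2 (m.choose s) := Nat.clog_pos (by norm_num) h
      obtain ⟨k, hk⟩ : ∃ k, Nat.clog 2 (m.choose s) = k + 1 := ⟨Nat.clog 2 (m.choose s) - 1, by omega⟩
      rw [hk] at h2 ⊢
      simp only [Nat.pred_succ] at h2
      rw [pow_succ]
      omega
    · have h2 : m.choose s = 1 := by omega
      rw [h2]
      simp
  have hclm : Nat.clog 2 (m.choose s) ≤ m := by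
    refine Nat.clog_le_of_le_pow ?_
    calc m.choose s ≤ ∑ k ∈ range (m + 1), m.choose k :=
          Finset.single_le_sum (f := fun k => m.choose k) (fun _ _ => Nat.zero_le _)
            (Finset.mem_range.2 (by omega))
      _ = 2 ^ m := Nat.sum_range_choose m
  have hg1a : 3330 * n < 10000 * g1 n + 10000 := by unfold g1; omega
  have hg1b : 10000 * g1 n ≤ 3330 * n := by unfold g1; omega
  have hle : Nat.clog 2 (m.choose s) ≤ 2 * g1 n := by omega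
  have hadd : g2 n m s + Nat.clog 2 (m.choose s) = 2 * g1 n := by unfold g2; omega
  set C : ℝ := (m.choose s : ℝ) with hC
  set x : ℝ := (2 : ℝ) ^ g2 n m s with hx
  have hC0 : 0 < C := by
    rw [hC]
    exact_mod_cast hCpos
  have hx0 : 0 < x := by positivity
  have hxC : x * (2 : ℝ) ^ Nat.clog 2 (m.choose s) = (2 : ℝ) ^ (2 * g1 n) := by
    rw [hx, ← pow_add, hadd]
  have hcl1r : C ≤ (2 : ℝ) ^ Nat.clog 2 (m.choose s) := by
    rw [hC]
    exact_mod_cast hcl1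
  have hcl2r : (2 : ℝ) ^ Nat.clog 2 (m.choose s) ≤ 2 * C := by
    rw [hC]
    exact_mod_cast hcl2
  have hg1r : (2 * (g1 n : ℝ)) ≤ 666 / 1000 * n := by
    have : (10000 : ℝ) * g1 n ≤ 3330 * n := by exact_mod_cast hg1b
    linarith
  have hg1s : (666 / 1000 * (n : ℝ)) ≤ 2 * (g1 n : ℝ) + 2 := by
    have : (3330 : ℝ) * n ≤ 10000 * g1 n + 10000 := by exact_mod_cast hg1a.le
    linarith
  have hG : ((2 : ℝ) ^ (2 * g1 n)) = (2 : ℝ) ^ (2 * (g1 n : ℝ)) := by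
    rw [← Real.rpow_natCast]
    push_cast
    rfl
  have hup : x * C ≤ (2 : ℝ) ^ (666 / 1000 * (n : ℝ)) := by
    calc x * C ≤ x * (2 : ℝ) ^ Nat.clog 2 (m.choose s) := mul_le_mul_of_nonneg_left hcl1r hx0.le
      _ = (2 : ℝ) ^ (2 * (g1 n : ℝ)) := by rw [hxC, hG]
      _ ≤ (2 : ℝ) ^ (666 / 1000 * (n : ℝ)) :=
        Real.rpow_le_rpow_of_exponent_le (by norm_num) hg1r
  have hlo : (2 : ℝ) ^ (666 / 1000 * (n : ℝ)) ≤ 8 * (x * C) := by
    calc (2 : ℝ) ^ (666 / 1000 * (n : ℝ)) ≤ (2 : ℝ) ^ (2 * (g1 n : ℝ) + 2) :=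
          Real.rpow_le_rpow_of_exponent_le (by norm_num) hg1s
      _ = 4 * (x * (2 : ℝ) ^ Nat.clog 2 (m.choose s)) := by
          rw [hxC, hG, Real.rpow_add (by norm_num)]
          norm_num
          ring
      _ ≤ 4 * (x * (2 * C)) := by
          refine mul_le_mul_of_nonneg_left (mul_le_mul_of_nonneg_left hcl2r hx0.le) (by norm_num)
      _ = 8 * (x * C) := by ring
  have hCge : (2 : ℝ) ^ (95 / 100 * (m : ℝ)) ≤ C := hm₀ m hms s ⟨hsa, hsb⟩
  -- `h1`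
  have hLL : (LL n : ℝ) ≤ (2 : ℝ) ^ (1 / 100 * (n : ℝ)) := by
    refine le_trans ?_ (hn₁ n hn1)
    have h : (LL n : ℝ) = 2 * (n : ℝ) ^ 4 + 1 := by
      unfold LL
      push_cast
      ring
    rw [h]
    have h0 : (0 : ℝ) ≤ n := Nat.cast_nonneg n
    have h4 : (n : ℝ) ^ 4 ≤ ((n : ℝ) + 2) ^ 4 := pow_le_pow_left₀ h0 (by linarith) 4
    have h5 : ((n : ℝ) + 2) ^ 5 = ((n : ℝ) + 2) * ((n : ℝ) + 2) ^ 4 := by ring
    have h6 : (1 : ℝ) ≤ ((n : ℝ) + 2) ^ 4 := one_le_pow₀ (by linarith)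
    rw [h5]
    nlinarith
  have H1 : (LL n : ℝ) * x ≤ 2 ^ s := by
    have h2 : x * (2 : ℝ) ^ (95 / 100 * (m : ℝ)) ≤ (2 : ℝ) ^ (666 / 1000 * (n : ℝ)) :=
      le_trans (mul_le_mul_of_nonneg_left hCge hx0.le) hup
    have h3 : x ≤ (2 : ℝ) ^ (666 / 1000 * (n : ℝ) - 95 / 100 * (m : ℝ)) := by
      rw [Real.rpow_sub (by norm_num), le_div_iff₀ (by positivity)]
      exact h2
    calc (LL n : ℝ) * x ≤ (2 : ℝ) ^ (1 / 100 * (n : ℝ)) *
          (2 : ℝ) ^ (666 / 1000 * (n : ℝ) - 95 / 100 * (m : ℝ)) :=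
          mul_le_mul hLL h3 hx0.le (by positivity)
      _ = (2 : ℝ) ^ (1 / 100 * (n : ℝ) + (666 / 1000 * (n : ℝ) - 95 / 100 * (m : ℝ))) :=
          (Real.rpow_add (by norm_num) _ _).symm
      _ ≤ (2 : ℝ) ^ (s : ℝ) := by
          refine Real.rpow_le_rpow_of_exponent_le (by norm_num) ?_
          linarith
      _ = 2 ^ s := Real.rpow_natCast _ _
  have hLL1 : (1 : ℝ) ≤ (LL n : ℝ) := by
    have : 1 ≤ LL n := by unfold LL; omega
    exact_mod_cast this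
  have hgs : g2 n m s ≤ s := by
    have h2 : (2 : ℝ) ^ g2 n m s ≤ 2 ^ s := by
      calc (2 : ℝ) ^ g2 n m s = x := rfl
        _ ≤ (LL n : ℝ) * x := by nlinarith
        _ ≤ 2 ^ s := H1
    exact (pow_le_pow_iff_right₀ (by norm_num : (1 : ℝ) < 2)).1 h2
  -- the logarithm
  have hlg : 30 * lg n ≤ n := by
    have h2 : 2 ^ (Nat.clog 2 (n + 2)).pred < n + 2 :=
      Nat.pow_pred_clog_lt_self (by norm_num) (by omega)
    have h3 : 0 < Nat.clog 2 (n + 2) := Nat.clog_pos (by norm_num) (by omega)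
    obtain ⟨k, hk⟩ : ∃ k, Nat.clog 2 (n + 2) = k + 1 := ⟨Nat.clog 2 (n + 2) - 1, by omega⟩
    rw [hk] at h2
    simp only [Nat.pred_succ] at h2
    have h4 : ((2 : ℝ) ^ k) ^ 30 ≤ ((n : ℝ) + 2) ^ 30 := by
      refine pow_le_pow_left₀ (by positivity) ?_ 30
      exact_mod_cast h2.le
    have h5 : (2 : ℝ) ^ ((30 * k : ℕ) : ℝ) ≤ (2 : ℝ) ^ (1 / 2 * (n : ℝ)) := by
      rw [Real.rpow_natCast, mul_comm, pow_mul]
      exact h4.trans (hn₃ n hn3)
    have h6 : ((30 * k : ℕ) : ℝ) ≤ 1 / 2 * (n : ℝ) :=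
      (Real.rpow_le_rpow_left_iff (by norm_num)).1 h5
    have h7 : 60 * k ≤ n := by
      have : (60 : ℝ) * k ≤ n := by
        push_cast at h6
        linarith
      exact_mod_cast this
    unfold lg
    rw [hk]
    omega
  -- `h2`
  have H2 : 2 ^ Rc n * (n + 2) ^ 40 ≤ 2 ^ g2 n m s := by
    have h2 := l2C (n := n) (m := m) (m' := s) hm1
    have h3 : C * (2 : ℝ) ^ ((rr + 12 / 100000) * n) ≤ 8 * (x * C) := h2.trans hlo
    have h4 : (2 : ℝ) ^ ((rr + 12 / 100000) * n) ≤ 8 * x := by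
      refine le_of_mul_le_mul_left ?_ hC0
      calc C * (2 : ℝ) ^ ((rr + 12 / 100000) * n) ≤ 8 * (x * C) := h3
        _ = C * (8 * x) := by ring
    have h5 : (Rc n : ℝ) ≤ 1655 / 10000 * n + 1 := by
      have h6 : 10000 * Rc n ≤ 1655 * n + 10000 := by unfold Rc; omega
      have h7 : (10000 : ℝ) * Rc n ≤ 1655 * n + 10000 := by exact_mod_cast h6
      linarith
    have h8 : (2 : ℝ) ^ Rc n * ((n : ℝ) + 2) ^ 40 * 8 ≤ 8 * x := by
      refine le_trans ?_ h4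
      calc (2 : ℝ) ^ Rc n * ((n : ℝ) + 2) ^ 40 * 8
          ≤ (2 : ℝ) ^ (1655 / 10000 * (n : ℝ) + 1) * (2 : ℝ) ^ (1 / 10000 * (n : ℝ)) * 8 := by
            refine mul_le_mul_of_nonneg_right (mul_le_mul ?_ (hn₂ n hn2) (by positivity)
              (by positivity)) (by norm_num)
            rw [← Real.rpow_natCast]
            exact Real.rpow_le_rpow_of_exponent_le (by norm_num) h5
        _ = (2 : ℝ) ^ (1655 / 10000 * (n : ℝ) + 1 + 1 / 10000 * (n : ℝ) + 3) := by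
            rw [Real.rpow_add (by norm_num) _ 3, Real.rpow_add (by norm_num) (1655 / 10000 * (n : ℝ) + 1)]
            norm_num
        _ ≤ (2 : ℝ) ^ ((rr + 12 / 100000) * n) := by
            refine Real.rpow_le_rpow_of_exponent_le (by norm_num) ?_
            rw [e3]
            linarith
    have h9 : (2 : ℝ) ^ Rc n * ((n : ℝ) + 2) ^ 40 ≤ x := by linarith
    rw [hx] at h9
    exact_mod_cast h9
  -- `h3`
  have H3 : (2 : ℝ) ^ s ≤ 1000 * x ^ 2 := by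
    have h2 := l2U (n := n) (m := m) (m' := s) hm1 hs1 hs2
    have h3 : (2 : ℝ) ^ (1332 / 1000 * (n : ℝ)) = ((2 : ℝ) ^ (666 / 1000 * (n : ℝ))) ^ 2 := by
      rw [← Real.rpow_natCast, ← Real.rpow_mul (by norm_num)]
      congr 1
      push_cast
      ring
    rw [h3] at h2
    have h4 : ((2 : ℝ) ^ (666 / 1000 * (n : ℝ))) ^ 2 ≤ (8 * (x * C)) ^ 2 :=
      pow_le_pow_left₀ (by positivity) hlo 2
    have h5 : C ^ 2 * (2 : ℝ) ^ s ≤ C ^ 2 * (64 * x ^ 2) := by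
      calc C ^ 2 * (2 : ℝ) ^ s ≤ ((2 : ℝ) ^ (666 / 1000 * (n : ℝ))) ^ 2 := h2
        _ ≤ (8 * (x * C)) ^ 2 := h4
        _ = C ^ 2 * (64 * x ^ 2) := by ring
    have h6 : (2 : ℝ) ^ s ≤ 64 * x ^ 2 := le_of_mul_le_mul_left h5 (by positivity)
    nlinarith [sq_nonneg x]
  refine ⟨by omega, hgs, ?_, ?_, fun _ => le_rfl, by norm_num, H1, H2, H3, ?_⟩
  · unfold c1 kb
    omega
  · unfold c2 kb
    omega
  · refine le_trans ?_ H3
    calc (∑ e ∈ range (s + 1), if Wi 3550 s e then (s.choose e : ℝ) * (fun _ : ℕ => (1 : ℝ)) e else 0)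
        ≤ ∑ e ∈ range (s + 1), (s.choose e : ℝ) := by
          refine Finset.sum_le_sum fun e _ => ?_
          split_ifs
          · simp
          · positivity
      _ = (2 : ℝ) ^ s := by
          have := Nat.sum_range_choose s
          exact_mod_cast this

end Pool.Agent.MPa9445a.SB
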