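import Pool.Agent.Lib.MP_a9445a_lc.Mg.G105
import Pool.Agent.Lib.MP_a9445a_lc.Mg.G100
/-! The mode B finds its targets. -/

set_option autoImplicit false
set_option synthInstance.maxSize 1000

open Finset

namespace Pool.Agent.MPa9445a.SB

open Pool.Agent.MPa9445a.SN (Fm rs kb)
open Pool.Agent.MPa9445a.GL (Vc S Ph Lv T Par lvl LL la2 fl Wb on off pl xk)

/-- Count a set of triples by the last component. -/
private theorem F3c_count {A B C : Type} [Fintype A] [Fintype B] [Fintype C]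
    (p : A × B × C → Prop) [DecidablePred p] (q : A → Prop) [DecidablePred q] {b : ℝ}
    (hb : 0 ≤ b) (H : ∀ a, q a → ∀ x : B, ((univ.filter fun c : C => p (a, x, c)).card : ℝ) ≤ b) :
    ((univ.filter p).card : ℝ) ≤ Fintype.card B * ((univ.filter fun a => ¬ q a).card *
      Fintype.card C + Fintype.card A * b) := by
  classical
  have h1 : ((univ.filter p).card : ℝ) =
      ∑ a : A, ∑ x : B, ((univ.filter fun c : C => p (a, x, c)).card : ℝ) := by
    simp only [Finset.card_filter, Nat.cast_sum]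
    rw [Fintype.sum_prod_type]
    refine Finset.sum_congr rfl fun a _ => ?_
    rw [Fintype.sum_prod_type]
  have h2 : ∀ a : A, ∑ x : B, ((univ.filter fun c : C => p (a, x, c)).card : ℝ) ≤
      Fintype.card B * ((if ¬ q a then (Fintype.card C : ℝ) else 0) + b) := by
    intro a
    have h3 : ∀ x ∈ (univ : Finset B), ((univ.filter fun c : C => p (a, x, c)).card : ℝ) ≤
        (if ¬ q a then (Fintype.card C : ℝ) else 0) + b := by
      intro x _
      by_cases hq : q a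
      · simp only [hq, not_true_eq_false, if_false, zero_add]
        exact H a hq x
      · simp only [hq, not_false_eq_true, if_true]
        have : ((univ.filter fun c : C => p (a, x, c)).card : ℝ) ≤ Fintype.card C := by
          exact_mod_cast Finset.card_le_univ _
        linarith
    have h4 := Finset.sum_le_sum h3
    rw [Finset.sum_const, nsmul_eq_mul, Finset.card_univ] at h4
    exact h4
  rw [h1]
  refine (Finset.sum_le_sum fun a _ => h2 a).trans (le_of_eq ?_)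
  rw [← Finset.mul_sum, Finset.sum_add_distrib, Finset.sum_const, nsmul_eq_mul, Finset.card_univ,
    ← Finset.sum_filter, Finset.sum_const, nsmul_eq_mul]

/-- The final estimate of the numbers. -/
private theorem F3c_num {N b c M F L x : ℝ} (hN : 0 ≤ N) (hb : 0 ≤ b) (hF : 0 ≤ F) (hc : 0 < c)
    (hx : 2 ≤ x) (hL : x ^ 30 ≤ L) (h1 : N * (c * L) ≤ 64 * (x - 1) * M ^ 2 * F)
    (h2 : b * (c * L) ≤ 2 * (x - 1) * F) (hM : 64 * M ^ 2 + 2 ≤ c * x) :
    F * (N * F + F * b) * x ^ 24 ≤ F * (F * F) := by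
  have hA : 0 < 64 * M ^ 2 + 2 := by positivity
  have hx0 : 0 < x := by linarith
  have k1 : (N + b) * (c * L) ≤ (64 * M ^ 2 + 2) * (x - 1) * F := by nlinarith
  have k2 : (N + b) * (c * x ^ 30) ≤ (N + b) * (c * L) :=
    mul_le_mul_of_nonneg_left (mul_le_mul_of_nonneg_left hL hc.le) (by linarith)
  have k3 : (64 * M ^ 2 + 2) * x ^ 29 ≤ c * x ^ 30 := by
    have : (64 * M ^ 2 + 2) * x ^ 29 ≤ (c * x) * x ^ 29 :=
      mul_le_mul_of_nonneg_right hM (by positivity)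
    calc (64 * M ^ 2 + 2) * x ^ 29 ≤ (c * x) * x ^ 29 := this
      _ = c * x ^ 30 := by ring
  have k4 : (N + b) * ((64 * M ^ 2 + 2) * x ^ 29) ≤ (N + b) * (c * x ^ 30) :=
    mul_le_mul_of_nonneg_left k3 (by linarith)
  have k5 : (N + b) * ((64 * M ^ 2 + 2) * x ^ 29) ≤ (64 * M ^ 2 + 2) * x * F := by
    have : (64 * M ^ 2 + 2) * (x - 1) * F ≤ (64 * M ^ 2 + 2) * x * F := by
      have : (64 * M ^ 2 + 2) * (x - 1) ≤ (64 * M ^ 2 + 2) * x :=
        mul_le_mul_of_nonneg_left (by linarith) hA.le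
      exact mul_le_mul_of_nonneg_right this hF
    linarith
  have k6 : (N + b) * x ^ 28 ≤ F := by
    have e : (64 * M ^ 2 + 2) * x * ((N + b) * x ^ 28) ≤ (64 * M ^ 2 + 2) * x * F := by
      calc (64 * M ^ 2 + 2) * x * ((N + b) * x ^ 28)
          = (N + b) * ((64 * M ^ 2 + 2) * x ^ 29) := by ring
        _ ≤ _ := k5
    exact le_of_mul_le_mul_left e (by positivity)
  have k7 : (N + b) * x ^ 24 ≤ (N + b) * x ^ 28 :=
    mul_le_mul_of_nonneg_left (pow_le_pow_right₀ (by linarith) (by norm_num)) (by linarith)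
  have k8 : (N + b) * x ^ 24 ≤ F := k7.trans k6
  calc F * (N * F + F * b) * x ^ 24 = F * F * ((N + b) * x ^ 24) := by ring
    _ ≤ F * F * F := mul_le_mul_of_nonneg_left k8 (by positivity)
    _ = F * (F * F) := by ring

open scoped Classical in
/-- PROOF. `𝒮 = Lv W (bl Q) t` is closed under negation (`Lv_neg`) and not empty; `MB` gives `I`, `w = wI u I`, `𝒯 = ag 𝒮 u I`, `#𝒯 ≥ c * #𝒮`, `4 * #𝒮 ≥ 2 ^ g` (otherwise no `r` is counted: `Up`). `freq` with `η = 1 / M`: `Frq` fails for at most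
`16 (n + 1) M ^ 2 * 2 ^ #Q / (Jn * #𝒯) ≤ 64 (n + 1) M ^ 2 / (c * 2 ^ (c1 lg))` of the `ωY`. Otherwise `sr_ok` and `MB` give at least `c * #𝒮 / (n + 1)` good `z`, so as many good `D` (`card_fl_filter`); `hitF` with `Fib_inter Q` (`eB ≤ kb n`: `ex_kb`) and `le_ex`: no `κ < 2 ^ eB` is good for at most
`2 ^ #Q / (2 ^ eB * #𝒳) ≤ 2 (n + 1) / (c * 2 ^ (c2 lg))` of the `ωB`; otherwise `modeB_one`. Both fractions are at most `1 / (2 (n + 2) ^ 24)` for `n ≥ n₀`. -/
theorem modeB_find {P : Lev} {d th : ℕ} (hP : PK P d th) (hM : MB P) (hd : 0 < d)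
    (hd' : d ≤ 5000) : ∃ n₀, ∀ n ≥ n₀, ∀ (W : Matrix (Fin n) (Fin n) ℤ) (Go : Rf n), Wb W → GO W Go →
    ∀ (Q : Finset (Fin n)), Q.Nonempty → ∀ u ∈ S (bl Q), ∀ (t : ℤ) (g : ℕ), g ≤ Q.card →
    Q.card + c1 * lg n ≤ kb n + g → n + c2 * lg n + 1 ≤ kb n →
    n ^ 2 * ((Lv W (bl Q) t).filter fun z => Wi P.d Q.card (df u z).card).card ≤
      (Lv W (bl Q) t).card →
    ∃ w : Pl n P.l, (univ.filter fun r : Rr n => Pr W Q g r t ∧ Up W Q g r.1 t ∧
      u ∉ oR W (Ew W Go P Q g r t w) Q (dB' Q r) (2 ^ eB W Q g r t) ((Ph W u + t) / 2)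
        (Ph W u)).card * (n + 2) ^ 24 ≤ Fintype.card (Rr n) := by
  obtain ⟨κ, k₁, c, n₁, hc, hEx, hmain⟩ := hM
  have hM0 : 0 < P.M := hP.M
  have hM0' : (0 : ℝ) < P.M := by exact_mod_cast hM0
  obtain ⟨n₂, hn₂⟩ := exists_nat_ge ((64 * (P.M : ℝ) ^ 2 + 2) / c)
  refine ⟨max n₁ n₂, fun n hn W Go hW hG Q hQ u hu t g hg hk1 hk2 hwin => ?_⟩
  have hn1 : n₁ ≤ n := le_trans (le_max_left _ _) hn
  have hn2 : n₂ ≤ n := le_trans (le_max_right _ _) hn
  have hMc : 64 * (P.M : ℝ) ^ 2 + 2 ≤ c * (n + 2 : ℝ) := by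
    rw [div_le_iff₀ hc] at hn₂
    have : (n₂ : ℝ) ≤ n := by exact_mod_cast hn2
    nlinarith
  by_cases hUp : 2 ^ g ≤ 4 * (Lv W (bl Q) t).card
  swap
  · obtain ⟨q0, hq0⟩ := hQ
    refine ⟨fun _ => (q0, true), ?_⟩
    rw [Finset.filter_false_of_mem]
    · simp
    · rintro r - ⟨-, h, -⟩
      exact hUp h.1
  have hLpos : 0 < (Lv W (bl Q) t).card := by
    have : 0 < 2 ^ g := by positivity
    omega
  have hsub : Lv W (bl Q) t ⊆ S (bl Q) := Finset.filter_subset _ _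
  obtain ⟨I, hI, hcard, hgood⟩ := hmain n hn1 Q hQ (Lv W (bl Q) t) hsub
    (Finset.card_pos.1 hLpos) (fun z hz => Lv_neg hz) u hu hwin
  set 𝒯 := ag (Lv W (bl Q) t) u I with h𝒯
  have h𝒯L : 𝒯 ⊆ Lv W (bl Q) t := Finset.filter_subset _ _
  have h𝒯S : 𝒯 ⊆ S (bl Q) := h𝒯L.trans hsub
  have hLpos' : (0 : ℝ) < (Lv W (bl Q) t).card := by exact_mod_cast hLpos
  have h𝒯ne : 𝒯.Nonempty := by
    rw [← Finset.card_pos]
    have : (0 : ℝ) < 𝒯.card := lt_of_lt_of_le (by positivity) hcard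
    exact_mod_cast this
  have hJ : Jn n Q.card g ≤ 2 ^ kb n := Nat.pow_le_pow_right (by norm_num) (by omega)
  have hJpos : 0 < Jn n Q.card g := by unfold Jn; positivity
  -- the numbers
  have hFpos : (0 : ℝ) ≤ Fintype.card (Fm n) := Nat.cast_nonneg _
  have hL : ((n : ℝ) + 2) ^ 30 ≤ 2 ^ (30 * lg n) := by
    have h := (lg_spec n).1
    have h' : ((n : ℝ) + 2) ≤ 2 ^ lg n := by exact_mod_cast h
    calc ((n : ℝ) + 2) ^ 30 ≤ (2 ^ lg n) ^ 30 := pow_le_pow_left₀ (by positivity) h' 30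
      _ = 2 ^ (30 * lg n) := by rw [← pow_mul, mul_comm]
  have hfr : ((univ.filter fun ω : Fm n => ¬ Frq Q 𝒯 (Jn n Q.card g) (1 / P.M) ω).card : ℝ) *
      (c * 2 ^ (30 * lg n)) ≤ 64 * (((n : ℝ) + 2) - 1) * (P.M : ℝ) ^ 2 * Fintype.card (Fm n) := by
    have h := freq h𝒯S hJ (η := 1 / (P.M : ℝ)) (by positivity)
      (by rw [div_le_one hM0']; exact_mod_cast hM0)
    have hJe := Jn_eq (n := n) (m := Q.card) (g := g) (by omega)
    set N : ℝ := ((univ.filter fun ω : Fm n => ¬ Frq Q 𝒯 (Jn n Q.card g) (1 / P.M) ω).card : ℝ)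
      with hNdef
    have hN0 : 0 ≤ N := Nat.cast_nonneg _
    have hUp' : (2 : ℝ) ^ g ≤ 4 * (Lv W (bl Q) t).card := by exact_mod_cast hUp
    have hJT : c * (2 ^ Q.card * 2 ^ (30 * lg n)) ≤ 4 * ((Jn n Q.card g : ℝ) * 𝒯.card) := by
      have e : (2 : ℝ) ^ Q.card * 2 ^ (30 * lg n) = Jn n Q.card g * 2 ^ g := hJe.symm
      rw [e]
      have h1 : (Jn n Q.card g : ℝ) * 2 ^ g ≤ Jn n Q.card g * (4 * (Lv W (bl Q) t).card) :=
        mul_le_mul_of_nonneg_left hUp' (Nat.cast_nonneg _)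
      have h2 : (Jn n Q.card g : ℝ) * (c * (Lv W (bl Q) t).card) ≤ Jn n Q.card g * 𝒯.card :=
        mul_le_mul_of_nonneg_left hcard (Nat.cast_nonneg _)
      have h3 : c * ((Jn n Q.card g : ℝ) * 2 ^ g) ≤
          c * (Jn n Q.card g * (4 * (Lv W (bl Q) t).card)) := mul_le_mul_of_nonneg_left h1 hc.le
      linarith
    have h1 : N * (c * (2 ^ Q.card * 2 ^ (30 * lg n))) ≤
        4 * (N * ((Jn n Q.card g : ℝ) * 𝒯.card)) := by
      have := mul_le_mul_of_nonneg_left hJT hN0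
      linarith
    have h2 : N * ((Jn n Q.card g : ℝ) * 𝒯.card) ≤
        (P.M : ℝ) ^ 2 * (16 * (n + 1) * 2 ^ Q.card * Fintype.card (Fm n)) := by
      have e : N * ((Jn n Q.card g : ℝ) * 𝒯.card) =
          (P.M : ℝ) ^ 2 * (N * ((1 / (P.M : ℝ)) ^ 2 * ((Jn n Q.card g : ℝ) * 𝒯.card))) := by
        field_simp
      rw [e]
      exact mul_le_mul_of_nonneg_left h (by positivity)
    have h3 : (2 : ℝ) ^ Q.card * (N * (c * 2 ^ (30 * lg n))) ≤
        2 ^ Q.card * (64 * (((n : ℝ) + 2) - 1) * (P.M : ℝ) ^ 2 * Fintype.card (Fm n)) := by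
      nlinarith [h1, h2]
    exact le_of_mul_le_mul_left h3 (by positivity)
  -- the bound for the last component
  let b0 : ℝ := 2 * (((n : ℝ) + 2) - 1) * Fintype.card (Fm n) / (c * 2 ^ (30 * lg n))
  have hb0 : 0 ≤ b0 := by
    have : (0 : ℝ) ≤ ((n : ℝ) + 2) - 1 := by
      have : (0 : ℝ) ≤ n := Nat.cast_nonneg n
      linarith
    positivity
  have hb1 : b0 * (c * 2 ^ (30 * lg n)) = 2 * (((n : ℝ) + 2) - 1) * Fintype.card (Fm n) := by
    have : c * (2 : ℝ) ^ (30 * lg n) ≠ 0 := by positivity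
    exact div_mul_cancel₀ _ this
  refine ⟨wI u I, ?_⟩
  have hcnt := F3c_count (fun r : Rr n => Pr W Q g r t ∧ Up W Q g r.1 t ∧
      u ∉ oR W (Ew W Go P Q g r t (wI u I)) Q (dB' Q r) (2 ^ eB W Q g r t) ((Ph W u + t) / 2)
        (Ph W u)) (fun ω : Fm n => Frq Q 𝒯 (Jn n Q.card g) (1 / P.M) ω) hb0 ?_
  · have hnum := F3c_num (N := ((univ.filter fun ω : Fm n =>
        ¬ Frq Q 𝒯 (Jn n Q.card g) (1 / P.M) ω).card : ℝ)) (b := b0) (c := c) (M := P.M)
        (F := Fintype.card (Fm n)) (L := 2 ^ (30 * lg n)) (x := (n : ℝ) + 2)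
        (Nat.cast_nonneg _) hb0 hFpos hc
        (by have : (0 : ℝ) ≤ n := Nat.cast_nonneg n
            linarith) hL hfr hb1.le hMc
    have hcardR : (Fintype.card (Rr n) : ℝ) =
        Fintype.card (Fm n) * (Fintype.card (Fm n) * Fintype.card (Fm n)) := by
      have : Fintype.card (Rr n) =
          Fintype.card (Fm n) * (Fintype.card (Fm n) * Fintype.card (Fm n)) := by
        rw [Fintype.card_prod, Fintype.card_prod]
      rw [this]
      push_cast
      ring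
    have hfin := (mul_le_mul_of_nonneg_right hcnt
      (by positivity : (0 : ℝ) ≤ ((n : ℝ) + 2) ^ 24)).trans hnum
    rw [← hcardR] at hfin
    exact_mod_cast hfin
  · intro ωY hY ωU
    -- scores
    by_cases hpu : 2 ^ (c1 * lg n - 1) ≤ (ht W Q ωY (Jn n Q.card g) t).card ∧ Up W Q g ωY t
    swap
    · rw [Finset.filter_false_of_mem]
      · simpa using hb0
      · rintro ωB - ⟨h1, h2, -⟩
        exact hpu ⟨h1, h2⟩
    obtain ⟨hpr, hup⟩ := hpu
    have hsr := fun v => sr_ok hM0 hEx hu hI hJpos h𝒯ne hY v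
    have hg2 := hgood (sr W P Q ωY (Jn n Q.card g) t (wI u I)) (fun v _ => hsr v)
    let 𝒳 : Finset (Finset (Fin n)) := Q.powerset.filter fun D => fl D u ∈ 𝒯 ∧
      (10000 * D.card < P.d * Q.card ∧
        sc (sr W P Q ωY (Jn n Q.card g) t (wI u I)) Q D u ≤ P.Θ Q.card)
    have h𝒳c : 𝒳.card = (𝒯.filter fun z => 10000 * (df u z).card < P.d * Q.card ∧
        sc (sr W P Q ωY (Jn n Q.card g) t (wI u I)) Q (df u z) u ≤ P.Θ Q.card).card := by
      have h := card_fl_filter hu h𝒯S (fun D => 10000 * D.card < P.d * Q.card ∧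
        sc (sr W P Q ωY (Jn n Q.card g) t (wI u I)) Q D u ≤ P.Θ Q.card)
      convert h using 2
    have hX : c * (Lv W (bl Q) t).card ≤ (n + 1) * 𝒳.card := by
      rw [h𝒳c]; exact hg2
    let e0 : ℕ := ex n Q.card g (ht W Q ωY (Jn n Q.card g) t).card
    have he0 : e0 ≤ kb n := (ex_kb hpr (by
      have := Finset.card_le_univ Q
      rw [Fintype.card_fin] at this
      omega)).trans hk2
    have hhit := hitF (Fib_inter Q) (𝒳 := 𝒳) (Finset.filter_subset _ _) (J := 2 ^ e0)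
      (Nat.pow_le_pow_right (by norm_num) he0)
    have hxpos : 0 < (ht W Q ωY (Jn n Q.card g) t).card := lt_of_lt_of_le (by positivity) hpr
    have hle := le_ex (n := n) (m := Q.card) (c := Q.card) hg hxpos hup.2
    set B : ℝ := ((univ.filter fun ω : Fm n => ∀ κ < 2 ^ e0,
      (fun X => X ∩ Q) (rs ω κ) ∉ 𝒳).card : ℝ) with hB
    have hB0 : 0 ≤ B := Nat.cast_nonneg _
    have hhit' : B * ((2 : ℝ) ^ e0 * 𝒳.card) ≤ Fintype.card (Fm n) * 2 ^ Q.card := by
      have h := hhit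
      rw [Finset.card_powerset] at h
      have h' : (((univ.filter fun ω : Fm n => ∀ κ < 2 ^ e0,
        (fun X => X ∩ Q) (rs ω κ) ∉ 𝒳).card * (2 ^ e0 * 𝒳.card) : ℕ) : ℝ) ≤
        ((Fintype.card (Fm n) * 2 ^ Q.card : ℕ) : ℝ) := by exact_mod_cast h
      push_cast at h'
      exact h'
    have hBb : B ≤ b0 := by
      rw [le_div_iff₀ (by positivity)]
      have h1 : (2 : ℝ) ^ Q.card * 2 ^ (30 * lg n) ≤
          2 * (Lv W (bl Q) t).card * 2 ^ e0 := hle
      have h2 : c * ((2 : ℝ) ^ Q.card * 2 ^ (30 * lg n)) ≤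
          2 * (((n : ℝ) + 1) * (2 ^ e0 * 𝒳.card)) := by
        have h3 := mul_le_mul_of_nonneg_left h1 hc.le
        have h4 := mul_le_mul_of_nonneg_left hX (by positivity : (0 : ℝ) ≤ 2 ^ e0)
        nlinarith [h3, h4]
      have h5 := mul_le_mul_of_nonneg_left h2 hB0
      have h6 : (2 : ℝ) ^ Q.card * (B * (c * 2 ^ (30 * lg n))) ≤
          2 ^ Q.card * (2 * (((n : ℝ) + 2) - 1) * Fintype.card (Fm n)) := by
        have h7 := mul_le_mul_of_nonneg_left hhit'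
          (by positivity : (0 : ℝ) ≤ 2 * ((n : ℝ) + 1))
        nlinarith [h5, h7]
      exact le_of_mul_le_mul_left h6 (by positivity)
    refine le_trans ?_ hBb
    rw [hB]
    refine Nat.cast_le.2 (Finset.card_le_card ?_)
    intro ωB hωB
    rw [Finset.mem_filter] at hωB ⊢
    refine ⟨Finset.mem_univ _, fun κ' hκ' hmem => hωB.2.2.2 ?_⟩
    have hmem' := Finset.mem_filter.1 hmem
    have hm2 : fl (rs ωB κ' ∩ Q) u ∈ 𝒯 := hmem'.2.1
    exact modeB_one hW hG (by rw [hP.d]; exact hd') hu (ω := (ωY, ωU, ωB)) hκ'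
      (Finset.mem_filter.1 (h𝒯L hm2)).2 hmem'.2.2.1 hmem'.2.2.2

end Pool.Agent.MPa9445a.SB
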