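import Pool.Agent.Lib.MP_a9445a_lc.SB.D5b
/-! The step for the average cost. -/

set_option autoImplicit false
set_option synthInstance.maxSize 1000

open Finset

namespace Pool.Agent.MPa9445a.SB

open Pool.Agent.MPa9445a.SN (Fm rs kb)
open Pool.Agent.MPa9445a.GL (Vc S Ph Lv T Par lvl LL la2 fl Wb on off pl xk)

variable {n : ℕ} {W : Matrix (Fin n) (Fin n) ℤ} {Go : Rf n} {R : ℕ}

open scoped Classical in
private theorem D5c_avg {Ω : Type} [Fintype Ω] (s : Finset (Hm n R)) (G : Fm n → Prop)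
    (f : Hm n R → Ω → Rr n → ℝ) (c : Hm n R → Ω → Sr n → ℝ) {B : ℝ} (hB : 0 ≤ B)
    (hc1 : ∀ h ∈ s, ∀ o σ, c h o σ ≤ 2 ^ n)
    (hc2 : ∀ h ∈ s, ∀ o σ z, G (σ z).1 → c h o σ ≤ 2 * f h o (σ z))
    (hf : ∀ h ∈ s, ∀ o r, 0 ≤ f h o r)
    (hb : ∀ ωY, G ωY → ∑ h ∈ s, ∑ o : Ω, ∑ ω' : Fm n × Fm n, f h o (ωY, ω'.1, ω'.2) ≤
      B * (s.card * Fintype.card Ω * (Fintype.card (Fm n)) ^ 2))
    (hbad : (univ.filter fun ω : Fm n => ¬ G ω).card * 4 ≤ Fintype.card (Fm n)) :
    ∑ h ∈ s, ∑ ω : Ω × Sr n, c h ω.1 ω.2 ≤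
      (1 + 2 * n * B) * (s.card * Fintype.card (Ω × Sr n)) := by
  -- step A
  have hA : ∀ h ∈ s, ∀ o σ, c h o σ ≤ (if ∀ z, ¬ G (σ z).1 then (2 : ℝ) ^ n else 0) +
      ∑ z, 2 * (if G (σ z).1 then f h o (σ z) else 0) := by
    intro h hh o σ
    have h0 : ∀ z ∈ (univ : Finset (Fin n)), 0 ≤ 2 * (if G (σ z).1 then f h o (σ z) else 0) := by
      intro z _
      split_ifs
      · exact mul_nonneg zero_le_two (hf h hh o _)
      · simp
    by_cases hall : ∀ z, ¬ G (σ z).1
    · rw [if_pos hall]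
      have := hc1 h hh o σ
      have h2 := Finset.sum_nonneg h0
      linarith
    · rw [if_neg hall]
      push Not at hall
      obtain ⟨z, hz⟩ := hall
      have h1 := Finset.single_le_sum h0 (mem_univ z)
      rw [if_pos hz] at h1
      have h3 := hc2 h hh o σ z hz
      linarith
  -- the bad part
  have hbad' : (univ.filter fun σ : Sr n => ∀ z, ¬ G (σ z).1).card * 4 ^ n ≤
      Fintype.card (Sr n) := by
    have key : (univ.filter fun r : Rr n => ¬ G r.1).card * 4 ≤ Fintype.card (Rr n) := by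
      have e : (univ.filter fun r : Rr n => ¬ G r.1) =
          (univ.filter fun ω : Fm n => ¬ G ω) ×ˢ (univ : Finset (Fm n × Fm n)) := by
        ext r
        simp
      rw [e, card_product, card_univ, Fintype.card_prod (Fm n) (Fm n × Fm n)]
      calc _ = (univ.filter fun ω : Fm n => ¬ G ω).card * 4 * Fintype.card (Fm n × Fm n) := by
            ring
        _ ≤ _ := Nat.mul_le_mul_right _ hbad
    have key2 := all_rounds (fun r : Rr n => ¬ G r.1) (by convert key)
    convert key2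
  have hsumbad : ∑ σ : Sr n, (if ∀ z, ¬ G (σ z).1 then (2 : ℝ) ^ n else 0) ≤
      Fintype.card (Sr n) := by
    rw [← Finset.sum_filter, Finset.sum_const, nsmul_eq_mul]
    have h1 : (((univ.filter fun σ : Sr n => ∀ z, ¬ G (σ z).1).card : ℝ)) * 4 ^ n ≤
        Fintype.card (Sr n) := by exact_mod_cast hbad'
    refine le_trans ?_ h1
    apply mul_le_mul_of_nonneg_left _ (Nat.cast_nonneg _)
    exact pow_le_pow_left₀ (by norm_num) (by norm_num) n
  -- the good part
  have hgood : ∀ z : Fin n, ∑ σ : Sr n, ∑ h ∈ s, ∑ o : Ω,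
      2 * (if G (σ z).1 then f h o (σ z) else 0) ≤
      Fintype.card (Sr n) * (2 * B * (s.card * Fintype.card Ω)) := by
    intro z
    have h1 := sum_round z (fun r : Rr n => ∑ h ∈ s, ∑ o : Ω, 2 * (if G r.1 then f h o r else 0))
    have h2 : ∑ r : Rr n, ∑ h ∈ s, ∑ o : Ω, 2 * (if G r.1 then f h o r else 0) ≤
        Fintype.card (Fm n) * (2 * (B * (s.card * Fintype.card Ω *
          (Fintype.card (Fm n)) ^ 2))) := by
      rw [Fintype.sum_prod_type]
      have h3 : ∀ ωY ∈ (univ : Finset (Fm n)), ∑ ω' : Fm n × Fm n, ∑ h ∈ s, ∑ o : Ω,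
          2 * (if G ((ωY, ω') : Rr n).1 then f h o (ωY, ω') else 0) ≤
          2 * (B * (s.card * Fintype.card Ω * (Fintype.card (Fm n)) ^ 2)) := by
        intro ωY _
        by_cases hG : G ωY
        · have h4 := hb ωY hG
          have e : ∑ ω' : Fm n × Fm n, ∑ h ∈ s, ∑ o : Ω,
              2 * (if G ((ωY, ω') : Rr n).1 then f h o (ωY, ω') else 0) =
              2 * ∑ h ∈ s, ∑ o : Ω, ∑ ω' : Fm n × Fm n, f h o (ωY, ω'.1, ω'.2) := by
            rw [Finset.sum_comm, Finset.mul_sum]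
            refine Finset.sum_congr rfl fun h _ => ?_
            rw [Finset.sum_comm, Finset.mul_sum]
            refine Finset.sum_congr rfl fun o _ => ?_
            rw [Finset.mul_sum]
            refine Finset.sum_congr rfl fun ω' _ => ?_
            rw [if_pos hG]
          rw [e]
          linarith
        · have e : ∑ ω' : Fm n × Fm n, ∑ h ∈ s, ∑ o : Ω,
              2 * (if G ((ωY, ω') : Rr n).1 then f h o (ωY, ω') else 0) = 0 := by
            refine Finset.sum_eq_zero fun ω' _ => Finset.sum_eq_zero fun h _ =>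
              Finset.sum_eq_zero fun o _ => ?_
            rw [if_neg hG, mul_zero]
          rw [e]
          positivity
      refine le_trans (Finset.sum_le_sum h3) ?_
      rw [Finset.sum_const, card_univ, nsmul_eq_mul]
    have hFm : (0 : ℝ) < Fintype.card (Fm n) := by
      have : 0 < Fintype.card (Fm n) := Fintype.card_pos
      exact_mod_cast this
    have hR : (Fintype.card (Rr n) : ℝ) = (Fintype.card (Fm n) : ℝ) ^ 3 := by
      rw [show Fintype.card (Rr n) = Fintype.card (Fm n) * (Fintype.card (Fm n) *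
        Fintype.card (Fm n)) from by rw [← Fintype.card_prod (Fm n) (Fm n),
          ← Fintype.card_prod (Fm n) (Fm n × Fm n)]]
      push_cast
      ring
    have hR0 : (0 : ℝ) < (Fintype.card (Fm n) : ℝ) ^ 3 := by positivity
    rw [hR] at h1
    have hS : (0 : ℝ) ≤ Fintype.card (Sr n) := Nat.cast_nonneg _
    have h5 := mul_le_mul_of_nonneg_left h2 hS
    have h6 : (∑ σ : Sr n, ∑ h ∈ s, ∑ o : Ω, 2 * (if G (σ z).1 then f h o (σ z) else 0)) *
        (Fintype.card (Fm n) : ℝ) ^ 3 ≤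
        (Fintype.card (Sr n) * (2 * B * (s.card * Fintype.card Ω))) *
          (Fintype.card (Fm n) : ℝ) ^ 3 := by
      calc _ = _ := h1
        _ ≤ _ := h5
        _ = _ := by ring
    exact le_of_mul_le_mul_right h6 hR0
  calc ∑ h ∈ s, ∑ ω : Ω × Sr n, c h ω.1 ω.2
      = ∑ h ∈ s, ∑ o : Ω, ∑ σ : Sr n, c h o σ := by
        refine Finset.sum_congr rfl fun h _ => ?_
        rw [Fintype.sum_prod_type]
    _ ≤ ∑ h ∈ s, ∑ o : Ω, ∑ σ : Sr n, ((if ∀ z, ¬ G (σ z).1 then (2 : ℝ) ^ n else 0) +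
          ∑ z, 2 * (if G (σ z).1 then f h o (σ z) else 0)) :=
        Finset.sum_le_sum fun h hh => Finset.sum_le_sum fun o _ => Finset.sum_le_sum fun σ _ =>
          hA h hh o σ
    _ = s.card * Fintype.card Ω * ∑ σ : Sr n, (if ∀ z, ¬ G (σ z).1 then (2 : ℝ) ^ n else 0) +
          ∑ z, ∑ σ : Sr n, ∑ h ∈ s, ∑ o : Ω, 2 * (if G (σ z).1 then f h o (σ z) else 0) := by
        simp only [Finset.sum_add_distrib]
        congr 1
        · rw [Finset.sum_const, Finset.sum_const, card_univ, nsmul_eq_mul, nsmul_eq_mul, mul_assoc]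
        · rw [Finset.sum_comm (s := (univ : Finset (Fin n)))]
          have e1 : ∀ h o, ∑ σ : Sr n, ∑ z, 2 * (if G (σ z).1 then f h o (σ z) else 0) =
              ∑ σ : Sr n, ∑ z, 2 * (if G (σ z).1 then f h o (σ z) else 0) := fun _ _ => rfl
          calc ∑ h ∈ s, ∑ o : Ω, ∑ σ : Sr n, ∑ z, 2 * (if G (σ z).1 then f h o (σ z) else 0)
              = ∑ h ∈ s, ∑ σ : Sr n, ∑ o : Ω, ∑ z, 2 * (if G (σ z).1 then f h o (σ z) else 0) :=
                Finset.sum_congr rfl fun h _ => Finset.sum_comm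
            _ = ∑ σ : Sr n, ∑ h ∈ s, ∑ o : Ω, ∑ z,
                  2 * (if G (σ z).1 then f h o (σ z) else 0) := Finset.sum_comm
            _ = ∑ σ : Sr n, ∑ z, ∑ h ∈ s, ∑ o : Ω,
                  2 * (if G (σ z).1 then f h o (σ z) else 0) := by
                refine Finset.sum_congr rfl fun σ _ => ?_
                calc ∑ h ∈ s, ∑ o : Ω, ∑ z, 2 * (if G (σ z).1 then f h o (σ z) else 0)
                    = ∑ h ∈ s, ∑ z, ∑ o : Ω, 2 * (if G (σ z).1 then f h o (σ z) else 0) :=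
                      Finset.sum_congr rfl fun h _ => Finset.sum_comm
                  _ = _ := Finset.sum_comm
    _ ≤ s.card * Fintype.card Ω * Fintype.card (Sr n) +
          ∑ z : Fin n, (Fintype.card (Sr n) * (2 * B * (s.card * Fintype.card Ω)) : ℝ) := by
        apply add_le_add
        · exact mul_le_mul_of_nonneg_left hsumbad (by positivity)
        · exact Finset.sum_le_sum fun z _ => hgood z
    _ = _ := by
        rw [Finset.sum_const, card_univ, Fintype.card_fin, nsmul_eq_mul,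
          Fintype.card_prod Ω (Sr n)]
        push_cast
        ring

/-- The step. PROOF. Let `p ∈ lvl n`, `q₀ ≥ 1`, `M = max (2 ^ g) (T W (bl Q) p q₀)`. If the parity is wrong, `cr = 1` (`cr_nd_par`). Otherwise `choice_bl` with `G = 2 ^ g` (`h1`) gives `r` and `t`; `(p + t) % 2 = 0` (`par_of`). For every `ω` with a round `z` such that `Hf W Q g (ω z).1 t` we have
(`Pr_of_Hf`, `cr_nd_le`) `cr ≤ 2 * ∑ z, [Hf] * (the five parts for the round z)`; otherwise `cr ≤ 2 ^ n` (`cr_le_n`). Average: `sum_round` and `round_cost` for every `z`; the `ω` without a good round are at most `#(Sr n) / 4 ^ n` (`all_rounds`, `half_est`), they contribute at most `2 ^ n / 4 ^ n ≤ 1`.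
Total: `(2 * n * 1000 * .. + 1) * M ≤ Fc n P.l * A * C * M`. -/
theorem step5 {Ω : Type} [Fintype Ω] (hW : Wb W) (hG : GO W Go) {E : Hm n R → Ω → ℕ → Rf n}
    (hE : ∀ h ω m, Gd W (E h ω m))
    {φ : Hm n R → Finset (Fin n) → Finset (Fin n) → Finset (Fin n)}
    (hφ : ∀ h Q, Fib (φ h Q) (Cc h Q)) {P : Lev} (hd : 0 < P.d) (hd' : P.d ≤ 5000)
    (hK : 0 < P.K) (hKr : ∀ j ≤ P.M, Kr P.K (P.tw j) (P.ta j) (P.tb j)) {Q : Finset (Fin n)}
    {C : ℝ} (hC : 1 ≤ C) (hpl : (pl n 8 : ℝ) ≤ C) {c : ℕ → ℝ}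
    (hch : ∀ X ⊆ Q, Wi P.d Q.card X.card → Bnd W (fun h ω => E h ω Q.card) X C (c X.card))
    {g : ℕ → ℕ} {A : ℝ} (hU : NumU n R P.d Q.card (g Q.card) c A)
    (hB : NumB n P.d P.th Q.card (g Q.card) A) :
    Bnd W (fun h (ω : Ω × Sr n) => nd W Go h (φ h) P (E h ω.1) g ω.2) Q (Fc n P.l * A * C)
      (2 ^ g Q.card) := by
  classical
  intro 𝓔 hCh p hp q₀ hq₀
  have hs0 := hU.s0
  have hn : 0 < n := lt_of_lt_of_le hs0 (by simpa using Finset.card_le_univ Q)
  have hn1 : (1 : ℝ) ≤ n := by exact_mod_cast hn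
  set M : ℝ := max ((2 : ℝ) ^ g Q.card) (T W (bl Q) p q₀) with hMdef
  have hgM : (2 : ℝ) ^ g Q.card ≤ M := le_max_left _ _
  have hM1 : (1 : ℝ) ≤ M := le_trans (one_le_pow₀ (by norm_num)) hgM
  have hA1 := hU.A0
  set B : ℝ := 1000 * 2 ^ (c2 * lg n) * (LL n : ℝ) ^ 3 * (2 * n) ^ P.l * A * C * M with hBdef
  have hLL : (1 : ℝ) ≤ LL n := by
    have : 1 ≤ LL n := by unfold LL; omega
    exact_mod_cast this
  have hB1 : 1 ≤ B := by
    have h1 : (1 : ℝ) ≤ 2 ^ (c2 * lg n) := one_le_pow₀ (by norm_num)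
    have h2 : (1 : ℝ) ≤ (LL n : ℝ) ^ 3 := one_le_pow₀ hLL
    have h3 : (1 : ℝ) ≤ (2 * n : ℝ) ^ P.l := one_le_pow₀ (by linarith)
    rw [hBdef]
    have i1 : (1 : ℝ) ≤ 1000 * 2 ^ (c2 * lg n) := one_le_mul_of_one_le_of_one_le (by norm_num) h1
    have i2 := one_le_mul_of_one_le_of_one_le i1 h2
    have i3 := one_le_mul_of_one_le_of_one_le i2 h3
    have i4 := one_le_mul_of_one_le_of_one_le i3 hA1
    have i5 := one_le_mul_of_one_le_of_one_le i4 hC
    exact one_le_mul_of_one_le_of_one_le i5 hM1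
  have hFB : Fc n P.l * A * C * M = 100 * n * B := by
    rw [hBdef, Fc]; ring
  have hkey : 1 + 2 * n * B ≤ Fc n P.l * A * C * M := by
    rw [hFB]
    have : 1 ≤ (n : ℝ) * B := one_le_mul_of_one_le_of_one_le hn1 hB1
    nlinarith
  have hcard : (0 : ℝ) ≤ ((KH R 𝓔).card : ℝ) * Fintype.card (Ω × Sr n) := by positivity
  have hφs : ∀ h, ∀ Q' X, φ h Q' X ⊆ Q' := by
    intro h Q' X
    have h1 := (hφ h Q').1 X
    unfold Cc at h1
    exact mem_powerset.mp (mem_filter.mp h1).1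
  by_cases hpar : Par W (bl Q) p
  · have hL : (LL n : ℝ) * 2 ^ g Q.card ≤ 2 ^ Q.card := hU.h1
    obtain ⟨r, t, hr, ht, hN, htt, hpp⟩ := choice_bl hW (Q := Q) (G := (2 : ℝ) ^ g Q.card)
      (one_le_pow₀ (by norm_num)) hL p hq₀
    have hN' : 2 ^ g Q.card ≤ (Lv W (bl Q) t).card := by exact_mod_cast hN
    have hne : (Lv W (bl Q) t).Nonempty := by
      rw [← Finset.card_pos]
      exact lt_of_lt_of_le (by positivity) hN'
    have hpt := par_of hpar hne
    have hmain := D5c_avg (n := n) (R := R) (Ω := Ω) (KH R 𝓔)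
      (fun ωY => Hf W Q (g Q.card) ωY t)
      (fun h ω r => ((2 : ℝ) ^ (Q.card - g Q.card) + 2 ^ eU W h Q (g Q.card) r t +
        2 ^ eB W Q (g Q.card) r t + cU W h (φ h) P (E h ω) Q (g Q.card) p r t +
        ∑ w, (cB W Go P Q (g Q.card) p r t w : ℝ)))
      (fun h ω σ => (cr (nd W Go h (φ h) P (E h ω) g σ) Q p : ℝ)) (B := B)
      (le_trans zero_le_one hB1)
      (fun h _ o σ => by
        have h1 := cr_le_n (Gd_nd (W := W) (Go := Go) (h := h) (φ := φ h) (P := P) (E := E h o)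
          (g := g) hG (hE h o) (hφs h) σ) Q p
        exact_mod_cast h1)
      (fun h _ o σ z hz => by
        have h1 := cr_nd_le (W := W) (Go := Go) (h := h) (φ := φ h) (P := P) (E := E h o)
          (g := g) (Q := Q) (p := p) (ω := σ) (z := z) ht
          (Pr_of_Hf hU.gs hN' hz) hpt
        have h2 : ((cr (nd W Go h (φ h) P (E h o) g σ) Q p : ℕ) : ℝ) ≤ ((2 * (2 ^ (Q.card - g Q.card) +
          2 ^ eU W h Q (g Q.card) (σ z) t + 2 ^ eB W Q (g Q.card) (σ z) t +
          cU W h (φ h) P (E h o) Q (g Q.card) p (σ z) t +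
          ∑ w, cB W Go P Q (g Q.card) p (σ z) t w) : ℕ) : ℝ) := by exact_mod_cast h1
        push_cast at h2
        exact h2)
      (fun h _ o r => by positivity)
      (fun ωY hY => round_cost hG hE hφ hd hd' hK hKr hCh hC hpl hch hU hB hpt hN' hr hgM htt hpp
        ωY hY)
      (by
        have := half_est W (Q := Q) (g := g Q.card) hU.gs hU.kbJ hN'
        exact this)
    refine le_trans hmain ?_
    exact mul_le_mul_of_nonneg_right hkey hcard
  · have e : ∑ h ∈ KH R 𝓔, ∑ ω : Ω × Sr n,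
        (cr (nd W Go h (φ h) P (E h ω.1) g ω.2) Q p : ℝ) =
        (KH R 𝓔).card * Fintype.card (Ω × Sr n) := by
      have : ∀ h ∈ KH R 𝓔, ∑ ω : Ω × Sr n,
          (cr (nd W Go h (φ h) P (E h ω.1) g ω.2) Q p : ℝ) = Fintype.card (Ω × Sr n) := by
        intro h _
        rw [Finset.sum_congr rfl fun ω _ => by rw [cr_nd_par hpar]]
        rw [Finset.sum_const, card_univ, nsmul_eq_mul, Nat.cast_one, mul_one]
      rw [Finset.sum_congr rfl this, Finset.sum_const, nsmul_eq_mul]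
    rw [e]
    refine le_mul_of_one_le_left hcard ?_
    have : 0 ≤ 2 * (n : ℝ) * B := by positivity
    linarith

end Pool.Agent.MPa9445a.SB
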