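import Pool.Agent.Lib.MP_a9445a_lc.Mg.G103
/-! The step for the average cost. -/

set_option autoImplicit false
set_option synthInstance.maxSize 1000

open Finset

namespace Pool.Agent.MPa9445a.SB

open Pool.Agent.MPa9445a.SN (Fm rs kb)
open Pool.Agent.MPa9445a.GL (Vc S Ph Lv T Par lvl LL la2 fl Wb on off pl xk)

variable {n : ℕ} {W : Matrix (Fin n) (Fin n) ℤ} {Go : Rf n} {R : ℕ}

private theorem D5b_num {L A C M N G : ℝ} (hL : 1 ≤ L) (hA : 1 ≤ A) (hC : 1 ≤ C) (hG : 1 ≤ G)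
    (hM : G ≤ M) (hN : G ≤ N) :
    A * G ^ 2 ≤ L ^ 3 * A * C * M * N ∧ L * (A * G ^ 2) ≤ L ^ 3 * A * C * M * N ∧
      C * L * (A * G ^ 2) ≤ L ^ 3 * A * C * M * N ∧
      C * L * ((L * M) * (L * N)) ≤ L ^ 3 * A * C * M * N := by
  have hM0 : 0 ≤ M := by linarith
  have hN0 : 0 ≤ N := by linarith
  have hG2 : G ^ 2 ≤ M * N := by
    have := mul_le_mul hM hN (by linarith) hM0
    nlinarith
  have hG20 : 0 ≤ A * G ^ 2 := by positivity
  have hAG : A * G ^ 2 ≤ A * (M * N) := mul_le_mul_of_nonneg_left hG2 (by linarith)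
  have hL3 : L ≤ L ^ 3 := by
    have h1 : 1 * L ≤ L ^ 2 * L := mul_le_mul_of_nonneg_right (by nlinarith) (by linarith)
    nlinarith
  have hL31 : 1 ≤ L ^ 3 := hL.trans hL3
  have h3 : C * L * (A * G ^ 2) ≤ L ^ 3 * A * C * M * N := by
    have h4 : C * L * (A * G ^ 2) ≤ C * L ^ 3 * (A * (M * N)) :=
      mul_le_mul (mul_le_mul_of_nonneg_left hL3 (by linarith)) hAG hG20 (by positivity)
    linarith
  have h2 : L * (A * G ^ 2) ≤ C * L * (A * G ^ 2) := by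
    have h4 : 1 * (L * (A * G ^ 2)) ≤ C * (L * (A * G ^ 2)) :=
      mul_le_mul_of_nonneg_right hC (by positivity)
    linarith
  have h1 : A * G ^ 2 ≤ L * (A * G ^ 2) := by
    have h4 : 1 * (A * G ^ 2) ≤ L * (A * G ^ 2) := mul_le_mul_of_nonneg_right hL hG20
    linarith
  refine ⟨by linarith, by linarith, h3, ?_⟩
  have h4 : 1 * (L ^ 3 * C * M * N) ≤ A * (L ^ 3 * C * M * N) :=
    mul_le_mul_of_nonneg_right hA (by positivity)
  nlinarith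

private theorem D5b_card (n l : ℕ) : (Fintype.card (Pl n l) : ℝ) = (2 * (n : ℝ)) ^ l := by
  have : Fintype.card (Pl n l) = (n * 2) ^ l := by
    simp [Pl, Fintype.card_prod]
  rw [this]
  push_cast
  ring

/-- The average cost of one round: all parts. PROOF. `M = max (2 ^ g) (T W (bl Q) p q₀)`, `N = #(Lv W (bl Q) t) ≥ 2 ^ g`, `T p r * T t r ≤ LL ^ 2 * M * N`. Sum over `h`, `ω`, `ωY` (only those with `Hf`), `ωU`, `ωB`, divided by the number of all of them: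
`2 ^ (#Q - g) ≤ A * 2 ^ g` (`h3`); `2 ^ eU ≤ 4 * 2 ^ (c2 lg) * (2 * 2 ^ R + 2 ^ #Q) / N ≤ 4 * 2 ^ (c2 lg) * 3 * A * M` (`sum_eU`, `2 ^ R ≤ 2 ^ g`); `2 ^ eB ≤ 4 * 2 ^ (c2 lg) * A * M` (`eB_le`); `cU ≤ 4 * 2 ^ (c2 lg) * LL ^ 3 * 21 * A * C * M`
(`sum_cU`, `h4`); `∑ w, cB w ≤ (2 n) ^ l * 4 * 2 ^ (c2 lg) * 12 * pl n 8 * LL ^ 3 * 8 * A * M` (`sum_cB`, `h5`, `h6`, `#(Pl n l) = (2 n) ^ l`). -/
theorem round_cost {Ω : Type} [Fintype Ω] (hG : GO W Go) {E : Hm n R → Ω → ℕ → Rf n}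
    (hE : ∀ h ω m, Gd W (E h ω m))
    {φ : Hm n R → Finset (Fin n) → Finset (Fin n) → Finset (Fin n)}
    (hφ : ∀ h Q, Fib (φ h Q) (Cc h Q)) {P : Lev} (hd : 0 < P.d) (hd' : P.d ≤ 5000)
    (hK : 0 < P.K) (hKr : ∀ j ≤ P.M, Kr P.K (P.tw j) (P.ta j) (P.tb j))
    {𝓔 : Finset (Finset (Fin n))} {Q : Finset (Fin n)} (hQ : Ch 𝓔 Q) {C : ℝ} (hC : 1 ≤ C)
    (hpl : (pl n 8 : ℝ) ≤ C) {c : ℕ → ℝ}
    (hch : ∀ X ⊆ Q, Wi P.d Q.card X.card → Bnd W (fun h ω => E h ω Q.card) X C (c X.card))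
    {g : ℕ} {A : ℝ} (hU : NumU n R P.d Q.card g c A) (hB : NumB n P.d P.th Q.card g A) {p t : ℤ}
    (hpar : (p + t) % 2 = 0) (hN : 2 ^ g ≤ (Lv W (bl Q) t).card) {r M : ℝ} (hr : 1 ≤ r)
    (hM : (2 : ℝ) ^ g ≤ M) (ht : T W (bl Q) t r ≤ LL n * (Lv W (bl Q) t).card)
    (hp : T W (bl Q) p r ≤ LL n * M) (ωY : Fm n) (hf : Hf W Q g ωY t) :
    ∑ h ∈ KH R 𝓔, ∑ ω : Ω, ∑ ω' : Fm n × Fm n,
      ((2 : ℝ) ^ (Q.card - g) + 2 ^ eU W h Q g (ωY, ω'.1, ω'.2) t +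
        2 ^ eB W Q g (ωY, ω'.1, ω'.2) t + cU W h (φ h) P (E h ω) Q g p (ωY, ω'.1, ω'.2) t +
        ∑ w, (cB W Go P Q g p (ωY, ω'.1, ω'.2) t w : ℝ)) ≤
      1000 * 2 ^ (c2 * lg n) * (LL n : ℝ) ^ 3 * (2 * n) ^ P.l * A * C * M *
        ((KH R 𝓔).card * Fintype.card Ω * (Fintype.card (Fm n)) ^ 2) := by
  classical
  have hs0 := hU.s0
  have hne : Q.Nonempty := Finset.card_pos.1 hs0
  have hn0 : 0 < n := by
    obtain ⟨v, _⟩ := hne
    exact v.pos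
  have hn1 : (1 : ℝ) ≤ n := by exact_mod_cast hn0
  set L : ℝ := (LL n : ℝ) with hL
  have hL1 : 1 ≤ L := by
    have : 1 ≤ LL n := by
      show 1 ≤ 2 * n ^ 4 + 1
      omega
    rw [hL]
    exact_mod_cast this
  set G : ℝ := (2 : ℝ) ^ g with hGd
  have hG1 : 1 ≤ G := one_le_pow₀ (by norm_num)
  set N : ℝ := ((Lv W (bl Q) t).card : ℝ) with hNd
  have hNG : G ≤ N := by
    rw [hGd, hNd]
    exact_mod_cast hN
  have hN0 : 0 < N := by linarith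
  have hNn : 0 < (Lv W (bl Q) t).card := by
    rw [hNd] at hN0
    exact_mod_cast hN0
  set X : ℝ := (2 : ℝ) ^ (c2 * lg n) with hX
  have hX1 : 1 ≤ X := one_le_pow₀ (by norm_num)
  set H : ℝ := ((KH R 𝓔).card : ℝ) with hH
  set w0 : ℝ := (Fintype.card Ω : ℝ) with hw0
  set F : ℝ := (Fintype.card (Fm n) : ℝ) with hF
  have hH0 : 0 ≤ H := Nat.cast_nonneg _
  have hw00 : 0 ≤ w0 := Nat.cast_nonneg _
  have hF0 : 0 ≤ F := Nat.cast_nonneg _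
  have hA1 := hU.A0
  have hM0 : 0 ≤ M := by linarith
  obtain ⟨n1, n2, n3, n4⟩ := D5b_num hL1 hA1 hC hG1 hM hNG
  set Z : ℝ := L ^ 3 * A * C * M * N with hZ
  have hZ0 : 0 ≤ Z := by positivity
  have hTp0 : 0 ≤ T W (bl Q) p r := GL.T_nonneg _ _ _ hr
  have hTt0 : 0 ≤ T W (bl Q) t r := GL.T_nonneg _ _ _ hr
  have hTT : T W (bl Q) p r * T W (bl Q) t r ≤ (L * M) * (L * N) :=
    mul_le_mul hp ht hTt0 (by positivity)
  have hs2 : (2 : ℝ) ^ Q.card ≤ A * G ^ 2 := hU.h3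
  have hR : (2 : ℝ) ^ R ≤ G := by
    have h1 := hU.h2
    have h2 : 2 ^ R * 1 ≤ 2 ^ R * (n + 2) ^ 40 :=
      Nat.mul_le_mul_left _ (Nat.one_le_pow _ _ (by omega))
    have h3 : 2 ^ R ≤ 2 ^ g := by omega
    rw [hGd]
    exact_mod_cast h3
  have hR2 : (2 : ℝ) ^ R ≤ A * G ^ 2 := by
    have h1 : G ≤ G ^ 2 := by nlinarith
    have h2 : 1 * G ^ 2 ≤ A * G ^ 2 := mul_le_mul_of_nonneg_right hA1 (by positivity)
    linarith
  have hRs : 2 * (2 : ℝ) ^ R + 2 ^ Q.card ≤ 3 * (A * G ^ 2) := by linarith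
  -- part 1
  have p1 : (2 : ℝ) ^ (Q.card - g) * N ≤ Z := by
    have h1 : (2 : ℝ) ^ (Q.card - g) * G = 2 ^ Q.card := by
      rw [hGd, ← pow_add, Nat.sub_add_cancel hU.gs]
    have h2 : (2 : ℝ) ^ (Q.card - g) * G ≤ (A * G) * G := by
      rw [h1]
      calc (2 : ℝ) ^ Q.card ≤ A * G ^ 2 := hs2
        _ = _ := by ring
    have h3 : (2 : ℝ) ^ (Q.card - g) ≤ A * G := le_of_mul_le_mul_right h2 (by linarith)
    have h4 : (2 : ℝ) ^ (Q.card - g) * N ≤ (A * M) * N := by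
      apply mul_le_mul_of_nonneg_right _ hN0.le
      have := mul_le_mul_of_nonneg_left hM (show 0 ≤ A by linarith)
      linarith
    have h5 : (A * M) * N ≤ Z := by
      have hL3 : 1 ≤ L ^ 3 := one_le_pow₀ hL1
      have h6 : 1 * 1 ≤ L ^ 3 * C := mul_le_mul hL3 hC (by norm_num) (by linarith)
      have h7 : 1 * ((A * M) * N) ≤ (L ^ 3 * C) * ((A * M) * N) :=
        mul_le_mul_of_nonneg_right (by linarith) (by positivity)
      rw [hZ]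
      linarith
    linarith
  -- part 2
  have p2 : ∀ a b : Fm n, (∑ h ∈ KH R 𝓔, (2 : ℝ) ^ eU W h Q g (ωY, a, b) t) * N ≤
      12 * X * Z * H := by
    intro a b
    have h1 := sum_eU (W := W) hφ hQ hU.gs hNn (ωY, a, b) hf
    refine h1.trans ?_
    rw [← hX, ← hH]
    apply mul_le_mul_of_nonneg_right _ hH0
    have h2 : 2 * (2 : ℝ) ^ R + 2 ^ Q.card ≤ 3 * Z := by linarith
    have h3 := mul_le_mul_of_nonneg_left h2 (show 0 ≤ 4 * X by linarith)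
    linarith
  -- part 3
  have p3 : ∀ a b : Fm n, (2 : ℝ) ^ eB W Q g (ωY, a, b) t * N ≤ 4 * X * Z := by
    intro a b
    have h1 := eB_le (W := W) hU.gs hNn (ωY, a, b) hf
    refine h1.trans ?_
    rw [← hX]
    have h2 := mul_le_mul_of_nonneg_left (hs2.trans n1) (show 0 ≤ 4 * X by linarith)
    linarith
  -- part 4
  have p4 : ∀ b : Fm n, (∑ h ∈ KH R 𝓔, ∑ ω : Ω, ∑ a : Fm n,
      (cU W h (φ h) P (E h ω) Q g p (ωY, a, b) t : ℝ)) * N ≤ 84 * X * Z * (H * w0 * F) := by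
    intro b
    have h1 := sum_cU hE hφ hd hd' hQ hne hC hU.c0 hch hU.gs hpar hNn hr ωY b hf
    refine h1.trans ?_
    rw [← hX, ← hL, ← hH, ← hw0, ← hF]
    apply mul_le_mul_of_nonneg_right _ (by positivity)
    have h4 := hU.h4
    rw [← hGd] at h4
    have h5 : L * (2 * 2 ^ R + 2 ^ Q.card) ≤ 3 * Z := by
      have := mul_le_mul_of_nonneg_left hRs (show 0 ≤ L by linarith)
      linarith
    have h6 : 12 * C * L * (∑ s ∈ range (Q.card + 1),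
          if Wi P.d Q.card s then (Q.card.choose s : ℝ) * c s else 0) ≤ 12 * Z := by
      have := mul_le_mul_of_nonneg_left h4 (show 0 ≤ C * L by positivity)
      linarith
    have h7 : 6 * C * L * (T W (bl Q) p r * T W (bl Q) t r) ≤ 6 * Z := by
      have := mul_le_mul_of_nonneg_left hTT (show 0 ≤ C * L by positivity)
      linarith
    have h8 := mul_le_mul_of_nonneg_left (add_le_add (add_le_add h5 h6) h7)
      (show 0 ≤ 4 * X by linarith)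
    linarith
  -- part 5
  have p5 : ∀ (a : Fm n) (w : Pl n P.l), (∑ b : Fm n, (cB W Go P Q g p (ωY, a, b) t w : ℝ)) * N ≤
      384 * X * Z * F := by
    intro a w
    have h1 := sum_cB hG hd' hK hKr hU.gs hpar hNn hr ωY a hf w
    refine h1.trans ?_
    rw [← hX, ← hL, ← hF]
    apply mul_le_mul_of_nonneg_right _ hF0
    have h5 := hB.h5
    have h6 := hB.h6
    rw [← hGd] at h5 h6
    have h7 : 3 * (2 : ℝ) ^ Q.card + 2 * 2 ^ ((P.th : ℝ) / 1000000 * Q.card) +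
        2 * (∑ e ∈ range (Q.card + 1), if 10000 * e < P.d * Q.card then
          (Q.card.choose e : ℝ) * 2 ^ (gam * e) else 0) ≤ 7 * (A * G ^ 2) := by linarith
    have h8 : L * (3 * (2 : ℝ) ^ Q.card + 2 * 2 ^ ((P.th : ℝ) / 1000000 * Q.card) +
        2 * (∑ e ∈ range (Q.card + 1), if 10000 * e < P.d * Q.card then
          (Q.card.choose e : ℝ) * 2 ^ (gam * e) else 0)) +
        L * (T W (bl Q) p r * T W (bl Q) t r) ≤
        L * (7 * (A * G ^ 2)) + L * ((L * M) * (L * N)) :=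
      add_le_add (mul_le_mul_of_nonneg_left h7 (by linarith))
        (mul_le_mul_of_nonneg_left hTT (by linarith))
    have h9 : 0 ≤ L * (7 * (A * G ^ 2)) + L * ((L * M) * (L * N)) := by positivity
    have h10 : (pl n 8 : ℝ) * (L * (3 * (2 : ℝ) ^ Q.card + 2 * 2 ^ ((P.th : ℝ) / 1000000 * Q.card) +
        2 * (∑ e ∈ range (Q.card + 1), if 10000 * e < P.d * Q.card then
          (Q.card.choose e : ℝ) * 2 ^ (gam * e) else 0)) +
        L * (T W (bl Q) p r * T W (bl Q) t r)) ≤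
        C * (L * (7 * (A * G ^ 2)) + L * ((L * M) * (L * N))) :=
      (mul_le_mul_of_nonneg_left h8 (Nat.cast_nonneg _)).trans
        (mul_le_mul_of_nonneg_right hpl h9)
    have h11 : C * (L * (7 * (A * G ^ 2)) + L * ((L * M) * (L * N))) ≤ 8 * Z := by linarith
    have h12 := mul_le_mul_of_nonneg_left (h10.trans h11) (show 0 ≤ 48 * X by linarith)
    linarith
  -- sums
  have hS : ∀ f : Hm n R → Ω → Fm n × Fm n → ℝ,
      ∑ h ∈ KH R 𝓔, ∑ ω : Ω, ∑ ω' : Fm n × Fm n, f h ω ω' =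
      ∑ b : Fm n, ∑ h ∈ KH R 𝓔, ∑ ω : Ω, ∑ a : Fm n, f h ω (a, b) := by
    intro f
    calc ∑ h ∈ KH R 𝓔, ∑ ω : Ω, ∑ ω' : Fm n × Fm n, f h ω ω'
        = ∑ h ∈ KH R 𝓔, ∑ ω : Ω, ∑ b : Fm n, ∑ a : Fm n, f h ω (a, b) :=
          Finset.sum_congr rfl fun h _ => Finset.sum_congr rfl fun ω _ =>
            Fintype.sum_prod_type_right _
      _ = ∑ h ∈ KH R 𝓔, ∑ b : Fm n, ∑ ω : Ω, ∑ a : Fm n, f h ω (a, b) :=
          Finset.sum_congr rfl fun h _ => Finset.sum_comm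
      _ = ∑ b : Fm n, ∑ h ∈ KH R 𝓔, ∑ ω : Ω, ∑ a : Fm n, f h ω (a, b) := Finset.sum_comm
  have hconst : ∀ x : ℝ, ∑ h ∈ KH R 𝓔, ∑ ω : Ω, ∑ ω' : Fm n × Fm n, x = x * (H * w0 * F ^ 2) := by
    intro x
    simp only [Finset.sum_const, Finset.card_univ, Fintype.card_prod, nsmul_eq_mul]
    push_cast
    ring
  have s1 : (∑ h ∈ KH R 𝓔, ∑ ω : Ω, ∑ ω' : Fm n × Fm n, (2 : ℝ) ^ (Q.card - g)) * N ≤
      Z * (H * w0 * F ^ 2) := by
    rw [hconst]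
    have := mul_le_mul_of_nonneg_right p1 (show 0 ≤ H * w0 * F ^ 2 by positivity)
    linarith
  have s2 : (∑ h ∈ KH R 𝓔, ∑ ω : Ω, ∑ ω' : Fm n × Fm n,
      (2 : ℝ) ^ eU W h Q g (ωY, ω'.1, ω'.2) t) * N ≤ 12 * X * Z * (H * w0 * F ^ 2) := by
    have h1 : ∑ h ∈ KH R 𝓔, ∑ ω : Ω, ∑ ω' : Fm n × Fm n,
        (2 : ℝ) ^ eU W h Q g (ωY, ω'.1, ω'.2) t = ∑ ω : Ω, ∑ ω' : Fm n × Fm n,
        ∑ h ∈ KH R 𝓔, (2 : ℝ) ^ eU W h Q g (ωY, ω'.1, ω'.2) t := by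
      exact Finset.sum_comm.trans (Finset.sum_congr rfl fun ω _ => Finset.sum_comm)
    rw [h1, Finset.sum_mul]
    simp only [Finset.sum_mul]
    have h2 : ∀ (ω' : Fm n × Fm n), ∑ h ∈ KH R 𝓔,
        (2 : ℝ) ^ eU W h Q g (ωY, ω'.1, ω'.2) t * N ≤ 12 * X * Z * H := by
      intro ω'
      rw [← Finset.sum_mul]
      exact p2 _ _
    refine (Finset.sum_le_sum fun ω _ => Finset.sum_le_sum fun ω' _ => h2 ω').trans (le_of_eq ?_)
    simp only [Finset.sum_const, Finset.card_univ, Fintype.card_prod, nsmul_eq_mul]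
    push_cast
    ring
  have s3 : (∑ h ∈ KH R 𝓔, ∑ ω : Ω, ∑ ω' : Fm n × Fm n,
      (2 : ℝ) ^ eB W Q g (ωY, ω'.1, ω'.2) t) * N ≤ 4 * X * Z * (H * w0 * F ^ 2) := by
    rw [← hconst]
    simp only [Finset.sum_mul]
    exact Finset.sum_le_sum fun h _ => Finset.sum_le_sum fun ω _ =>
      Finset.sum_le_sum fun ω' _ => p3 _ _
  have s4 : (∑ h ∈ KH R 𝓔, ∑ ω : Ω, ∑ ω' : Fm n × Fm n,
      (cU W h (φ h) P (E h ω) Q g p (ωY, ω'.1, ω'.2) t : ℝ)) * N ≤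
      84 * X * Z * (H * w0 * F ^ 2) := by
    rw [hS, Finset.sum_mul]
    refine (Finset.sum_le_sum fun b _ => p4 b).trans (le_of_eq ?_)
    simp only [Finset.sum_const, Finset.card_univ, nsmul_eq_mul]
    ring
  have s5 : (∑ h ∈ KH R 𝓔, ∑ ω : Ω, ∑ ω' : Fm n × Fm n, ∑ w,
      (cB W Go P Q g p (ωY, ω'.1, ω'.2) t w : ℝ)) * N ≤
      384 * X * Z * (2 * (n : ℝ)) ^ P.l * (H * w0 * F ^ 2) := by
    have h1 : (∑ ω' : Fm n × Fm n, ∑ w, (cB W Go P Q g p (ωY, ω'.1, ω'.2) t w : ℝ)) * N ≤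
        384 * X * Z * (2 * (n : ℝ)) ^ P.l * F ^ 2 := by
      rw [Finset.sum_comm, Finset.sum_mul]
      have h2 : ∀ w : Pl n P.l, (∑ ω' : Fm n × Fm n,
          (cB W Go P Q g p (ωY, ω'.1, ω'.2) t w : ℝ)) * N ≤ 384 * X * Z * F ^ 2 := by
        intro w
        rw [Fintype.sum_prod_type, Finset.sum_mul]
        refine (Finset.sum_le_sum fun a _ => p5 a w).trans (le_of_eq ?_)
        simp only [Finset.sum_const, Finset.card_univ, nsmul_eq_mul]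
        ring
      refine (Finset.sum_le_sum fun w _ => h2 w).trans (le_of_eq ?_)
      simp only [Finset.sum_const, Finset.card_univ, nsmul_eq_mul]
      rw [D5b_card]
      ring
    simp only [Finset.sum_const, Finset.card_univ, nsmul_eq_mul]
    have h3 := mul_le_mul_of_nonneg_left h1 (show 0 ≤ H * w0 by positivity)
    linarith
  -- the end
  have hl1 : 1 ≤ (2 * (n : ℝ)) ^ P.l := one_le_pow₀ (by linarith)
  set B : ℝ := (2 * (n : ℝ)) ^ P.l with hBd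
  have hV0 : 0 ≤ H * w0 * F ^ 2 := by positivity
  set V : ℝ := H * w0 * F ^ 2 with hV
  have hsplit : ∑ h ∈ KH R 𝓔, ∑ ω : Ω, ∑ ω' : Fm n × Fm n,
      ((2 : ℝ) ^ (Q.card - g) + 2 ^ eU W h Q g (ωY, ω'.1, ω'.2) t +
        2 ^ eB W Q g (ωY, ω'.1, ω'.2) t + cU W h (φ h) P (E h ω) Q g p (ωY, ω'.1, ω'.2) t +
        ∑ w, (cB W Go P Q g p (ωY, ω'.1, ω'.2) t w : ℝ)) =
      (∑ h ∈ KH R 𝓔, ∑ ω : Ω, ∑ ω' : Fm n × Fm n, (2 : ℝ) ^ (Q.card - g)) +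
      (∑ h ∈ KH R 𝓔, ∑ ω : Ω, ∑ ω' : Fm n × Fm n,
        (2 : ℝ) ^ eU W h Q g (ωY, ω'.1, ω'.2) t) +
      (∑ h ∈ KH R 𝓔, ∑ ω : Ω, ∑ ω' : Fm n × Fm n,
        (2 : ℝ) ^ eB W Q g (ωY, ω'.1, ω'.2) t) +
      (∑ h ∈ KH R 𝓔, ∑ ω : Ω, ∑ ω' : Fm n × Fm n,
        (cU W h (φ h) P (E h ω) Q g p (ωY, ω'.1, ω'.2) t : ℝ)) +
      (∑ h ∈ KH R 𝓔, ∑ ω : Ω, ∑ ω' : Fm n × Fm n, ∑ w,
        (cB W Go P Q g p (ωY, ω'.1, ω'.2) t w : ℝ)) := by
    simp only [Finset.sum_add_distrib]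
  rw [hsplit]
  refine le_of_mul_le_mul_right ?_ hN0
  have hfin : Z * V + 12 * X * Z * V + 4 * X * Z * V + 84 * X * Z * V + 384 * X * Z * B * V ≤
      1000 * (X * Z * B * V) := by
    have hXB : 1 * 1 ≤ X * B := mul_le_mul hX1 hl1 (by norm_num) (by linarith)
    have e1 : 1 * (Z * V) ≤ (X * B) * (Z * V) := mul_le_mul_of_nonneg_right (by linarith)
      (by positivity)
    have e2 : 1 * (X * Z * V) ≤ B * (X * Z * V) := mul_le_mul_of_nonneg_right hl1 (by positivity)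
    have e3 : 0 ≤ X * Z * B * V := by positivity
    linarith
  have hlast : 1000 * X * L ^ 3 * B * A * C * M * V * N = 1000 * (X * Z * B * V) := by
    rw [hZ]
    ring
  rw [hlast]
  rw [add_mul, add_mul, add_mul, add_mul]
  linarith

end Pool.Agent.MPa9445a.SB
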